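import Mathlib

/-!
# Definitions for the `q`-congruence of problem MP_781342_nt

The objects of the problem, over an arbitrary field (in the result: the field `ℚ(q)`).
-/

open Finset Polynomial

namespace Pool.Agent.MP_781342_nt_QC

/-- the `q`-Pochhammer symbol `(a;q)_k` -/
def qPoch {K : Type*} [Field K] (a q : K) (k : ℕ) : K := ∏ j ∈ range k, (1 - a * q ^ j)

/-- the central `q`-binomial coefficient `(q;q)_{2k} / (q;q)_k^2` -/
def qCentral {K : Type*} [Field K] (q : K) (k : ℕ) : K := qPoch q q (2 * k) / qPoch q q k ^ 2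

/-- `L_n(q)` -/
def Lsum {K : Type*} [Field K] (n : ℕ) (q : K) : K :=
  ∑ k ∈ range n, qCentral q k * (q ^ k / qPoch (-q) q k)

/-- `R_n(q)` -/
def Rsum {K : Type*} [Field K] (n : ℕ) (q : K) : K :=
  ∑ k ∈ range n, q ^ (2 * k) * qPoch q (q ^ 2) k ^ 2 / qPoch (q ^ 2) (q ^ 2) k ^ 2

/-- `A ≡ B (mod Φ_n(q)^m)` for rational functions. -/
def CongMod (n m : ℕ) (A B : RatFunc ℚ) : Prop :=
  ∃ P Q : ℤ[X], IsCoprime (Q.map (Int.castRingHom ℚ)) (cyclotomic n ℚ) ∧
    cyclotomic n ℤ ^ m ∣ P ∧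
    A - B = algebraMap ℚ[X] (RatFunc ℚ) (P.map (Int.castRingHom ℚ)) /
      algebraMap ℚ[X] (RatFunc ℚ) (Q.map (Int.castRingHom ℚ))

end Pool.Agent.MP_781342_nt_QC
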