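import Pool.Agent.MP_781342_nt_QC.Defs

/-!
# A `q`-analogue of a congruence between two central binomial sums

For every odd `n`, `L_n(q) ≡ R_n(q)` modulo the cube of the `n`-th cyclotomic polynomial.

Outline.  With `n = 2 s + 1`, both sums have exact partial-fraction type formulas (`L_formula`,
`R_formula`), in which the summands `j` and `2 s - j` can be paired.  Dividing by `(1 - q ^ n) ^ 2`
and letting `q` tend to a primitive `n`-th root of unity `ζ`, both sums minus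
`(-1) ^ s * q ^ (s * (s + 1))` have explicit limits (`limit_L`, `limit_R`), which are equal by an
identity at the root of unity (`limits_eq`).  Hence the difference is `o((1 - q ^ n) ^ 2)`, which
gives the third power of the cyclotomic polynomial (`final_step`).
-/

open Finset Filter Topology Polynomial

namespace Pool.Agent.MP_781342_nt_QC


/-- `f` and `g` are given by the same quotient of polynomials, along the filter `l`. -/
def Rel (l : Filter ℂ) (f : RatFunc ℚ) (g : ℂ → ℂ) : Prop :=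
  ∃ P Q : ℚ[X], Q ≠ 0 ∧ f * algebraMap ℚ[X] (RatFunc ℚ) Q = algebraMap ℚ[X] (RatFunc ℚ) P ∧
    ∀ᶠ z in l, g z * aeval z Q = aeval z P

variable {l : Filter ℂ}

theorem Rel.X : Rel l RatFunc.X (fun z => z) :=
  ⟨Polynomial.X, 1, one_ne_zero, by simp [RatFunc.algebraMap_X], by simp⟩

theorem Rel.one : Rel l 1 (fun _ => 1) := ⟨1, 1, one_ne_zero, by simp, by simp⟩

theorem Rel.add {f₁ f₂ : RatFunc ℚ} {g₁ g₂ : ℂ → ℂ} (h₁ : Rel l f₁ g₁) (h₂ : Rel l f₂ g₂) :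
    Rel l (f₁ + f₂) (fun z => g₁ z + g₂ z) := by
  obtain ⟨P₁, Q₁, hQ₁, e₁, E₁⟩ := h₁
  obtain ⟨P₂, Q₂, hQ₂, e₂, E₂⟩ := h₂
  refine ⟨P₁ * Q₂ + P₂ * Q₁, Q₁ * Q₂, mul_ne_zero hQ₁ hQ₂, ?_, ?_⟩
  · simp only [map_mul, map_add, ← e₁, ← e₂]; ring
  · filter_upwards [E₁, E₂] with z h1 h2
    simp only [map_mul, map_add, ← h1, ← h2]; ring

theorem Rel.mul {f₁ f₂ : RatFunc ℚ} {g₁ g₂ : ℂ → ℂ} (h₁ : Rel l f₁ g₁) (h₂ : Rel l f₂ g₂) :
    Rel l (f₁ * f₂) (fun z => g₁ z * g₂ z) := by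
  obtain ⟨P₁, Q₁, hQ₁, e₁, E₁⟩ := h₁
  obtain ⟨P₂, Q₂, hQ₂, e₂, E₂⟩ := h₂
  refine ⟨P₁ * P₂, Q₁ * Q₂, mul_ne_zero hQ₁ hQ₂, ?_, ?_⟩
  · simp only [map_mul, ← e₁, ← e₂]; ring
  · filter_upwards [E₁, E₂] with z h1 h2
    simp only [map_mul, ← h1, ← h2]; ring

theorem Rel.neg {f₁ : RatFunc ℚ} {g₁ : ℂ → ℂ} (h₁ : Rel l f₁ g₁) :
    Rel l (-f₁) (fun z => - g₁ z) := by
  obtain ⟨P₁, Q₁, hQ₁, e₁, E₁⟩ := h₁
  refine ⟨-P₁, Q₁, hQ₁, ?_, ?_⟩
  · simp only [map_neg, ← e₁]; ring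
  · filter_upwards [E₁] with z h1
    simp only [map_neg, ← h1]; ring

theorem Rel.sub {f₁ f₂ : RatFunc ℚ} {g₁ g₂ : ℂ → ℂ} (h₁ : Rel l f₁ g₁) (h₂ : Rel l f₂ g₂) :
    Rel l (f₁ - f₂) (fun z => g₁ z - g₂ z) := by
  simpa only [sub_eq_add_neg] using h₁.add h₂.neg

theorem Rel.inv (hl : ∀ Q : ℚ[X], Q ≠ 0 → ∀ᶠ z : ℂ in l, aeval z Q ≠ 0)
    {f₁ : RatFunc ℚ} {g₁ : ℂ → ℂ} (h₁ : Rel l f₁ g₁) :
    Rel l f₁⁻¹ (fun z => (g₁ z)⁻¹) := by
  obtain ⟨P₁, Q₁, hQ₁, e₁, E₁⟩ := h₁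
  have hQ' : algebraMap ℚ[X] (RatFunc ℚ) Q₁ ≠ 0 := by simpa using hQ₁
  by_cases hP : P₁ = 0
  · refine ⟨0, 1, one_ne_zero, ?_, ?_⟩
    · rw [hP, map_zero] at e₁
      have : f₁ = 0 := (mul_eq_zero.1 e₁).resolve_right hQ'
      simp [this]
    · filter_upwards [E₁, hl Q₁ hQ₁] with z h1 h2
      rw [hP, map_zero] at h1
      have : g₁ z = 0 := (mul_eq_zero.1 h1).resolve_right h2
      simp [this]
  · have hP' : algebraMap ℚ[X] (RatFunc ℚ) P₁ ≠ 0 := by simpa using hP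
    refine ⟨Q₁, P₁, hP, ?_, ?_⟩
    · rw [← e₁] at hP' ⊢
      have : f₁ ≠ 0 := left_ne_zero_of_mul hP'
      field_simp
    · filter_upwards [E₁, hl P₁ hP] with z h1 h2
      rw [← h1] at h2 ⊢
      have : g₁ z ≠ 0 := left_ne_zero_of_mul h2
      field_simp

theorem Rel.div (hl : ∀ Q : ℚ[X], Q ≠ 0 → ∀ᶠ z : ℂ in l, aeval z Q ≠ 0)
    {f₁ f₂ : RatFunc ℚ} {g₁ g₂ : ℂ → ℂ} (h₁ : Rel l f₁ g₁) (h₂ : Rel l f₂ g₂) :
    Rel l (f₁ / f₂) (fun z => g₁ z / g₂ z) := by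
  simpa only [div_eq_mul_inv] using h₁.mul (h₂.inv hl)

theorem Rel.prod {f : ℕ → RatFunc ℚ} {g : ℕ → ℂ → ℂ} (h : ∀ i, Rel l (f i) (g i)) (k : ℕ) :
    Rel l (∏ i ∈ range k, f i) (fun z => ∏ i ∈ range k, g i z) := by
  induction k with
  | zero => simpa using Rel.one
  | succ k ih => simpa only [prod_range_succ] using ih.mul (h k)

theorem Rel.zero : Rel l 0 (fun _ => 0) := ⟨0, 1, one_ne_zero, by simp, by simp⟩

theorem Rel.sum {f : ℕ → RatFunc ℚ} {g : ℕ → ℂ → ℂ} (h : ∀ i, Rel l (f i) (g i)) (k : ℕ) :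
    Rel l (∑ i ∈ range k, f i) (fun z => ∑ i ∈ range k, g i z) := by
  induction k with
  | zero => simpa using Rel.zero
  | succ k ih => simpa only [sum_range_succ] using ih.add (h k)

theorem Rel.pow {f : RatFunc ℚ} {g : ℂ → ℂ} (h : Rel l f g) (k : ℕ) :
    Rel l (f ^ k) (fun z => g z ^ k) := by
  induction k with
  | zero => simpa using Rel.one
  | succ k ih => simpa only [pow_succ] using ih.mul h

theorem Rel.qPoch {a q : RatFunc ℚ} {a' q' : ℂ → ℂ} (ha : Rel l a a') (hq : Rel l q q') (k : ℕ) :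
    Rel l (qPoch a q k) (fun z => qPoch (a' z) (q' z) k) := by
  unfold Pool.Agent.MP_781342_nt_QC.qPoch
  exact Rel.prod (fun j => Rel.one.sub (ha.mul (hq.pow j))) k

theorem Rel.Lsum (hl : ∀ Q : ℚ[X], Q ≠ 0 → ∀ᶠ z : ℂ in l, aeval z Q ≠ 0) (n : ℕ) :
    Rel l (Lsum n (RatFunc.X : RatFunc ℚ)) (fun z => Lsum n z) := by
  unfold Pool.Agent.MP_781342_nt_QC.Lsum qCentral
  exact Rel.sum (fun k => ((Rel.X.qPoch Rel.X _).div hl ((Rel.X.qPoch Rel.X _).pow 2)).mul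
    ((Rel.X.pow k).div hl (Rel.X.neg.qPoch Rel.X k))) n

theorem Rel.Rsum (hl : ∀ Q : ℚ[X], Q ≠ 0 → ∀ᶠ z : ℂ in l, aeval z Q ≠ 0) (n : ℕ) :
    Rel l (Rsum n (RatFunc.X : RatFunc ℚ)) (fun z => Rsum n z) := by
  unfold Pool.Agent.MP_781342_nt_QC.Rsum
  exact Rel.sum (fun k => ((Rel.X.pow (2 * k)).mul ((Rel.X.qPoch (Rel.X.pow 2) _).pow 2)).div hl
    (((Rel.X.pow 2).qPoch (Rel.X.pow 2) _).pow 2)) n

section Final

variable {ζ : ℂ} {n : ℕ}

theorem dvd_of_tendsto (hζ : IsPrimitiveRoot ζ n) (hn : 0 < n) [l.NeBot] (hl0 : l ≤ 𝓝 ζ)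
    (hl : ∀ Q : ℚ[X], Q ≠ 0 → ∀ᶠ z : ℂ in l, aeval z Q ≠ 0) (m : ℕ) (P : ℚ[X])
    (h : Tendsto (fun z : ℂ => aeval z P / (aeval z (cyclotomic n ℚ)) ^ m) l (𝓝 0)) :
    cyclotomic n ℚ ^ (m + 1) ∣ P := by
  have hcont : ∀ Q : ℚ[X], Tendsto (fun z : ℂ => aeval z Q) l (𝓝 (aeval ζ Q)) := fun Q =>
    (Q.continuous_aeval.tendsto ζ).mono_left hl0
  have hroot : ∀ Q : ℚ[X], aeval ζ Q = 0 → cyclotomic n ℚ ∣ Q := by
    intro Q hQ
    rw [cyclotomic_eq_minpoly_rat hζ hn]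
    exact minpoly.dvd ℚ ζ hQ
  have hcyc : aeval ζ (cyclotomic n ℚ) = 0 := by
    rw [cyclotomic_eq_minpoly_rat hζ hn]
    exact minpoly.aeval ℚ ζ
  have hne := hl (cyclotomic n ℚ) (cyclotomic_ne_zero n ℚ)
  induction m with
  | zero =>
    simp only [pow_zero, div_one] at h
    have h0 : aeval ζ P = 0 := tendsto_nhds_unique (hcont P) h
    simpa using hroot P h0
  | succ m ih =>
    have h1 : Tendsto (fun z : ℂ => aeval z P / (aeval z (cyclotomic n ℚ)) ^ m) l (𝓝 0) := by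
      have h2 := h.mul (hcont (cyclotomic n ℚ))
      rw [zero_mul] at h2
      refine h2.congr' ?_
      filter_upwards [hne] with z hz
      rw [pow_succ]
      field_simp
    obtain ⟨R, rfl⟩ := ih h1
    have h3 : Tendsto (fun z : ℂ => aeval z R) l (𝓝 0) := by
      refine h.congr' ?_
      filter_upwards [hne] with z hz
      rw [map_mul, map_pow]
      field_simp
    have h0 : aeval ζ R = 0 := tendsto_nhds_unique (hcont R) h3
    rw [pow_succ (cyclotomic n ℚ) (m + 1)]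
    exact mul_dvd_mul_left _ (hroot R h0)

theorem final_step (hζ : IsPrimitiveRoot ζ n) (hn : 0 < n) [l.NeBot] (hl0 : l ≤ 𝓝 ζ)
    (hl : ∀ Q : ℚ[X], Q ≠ 0 → ∀ᶠ z : ℂ in l, aeval z Q ≠ 0)
    {A B : RatFunc ℚ} {g : ℂ → ℂ} (hR : Rel l (A - B) g)
    (hg : Tendsto (fun z => g z / (1 - z ^ n) ^ 2) l (𝓝 0)) : CongMod n 3 A B := by
  obtain ⟨P, Q, hQ, e, E⟩ := hR
  set Φ := cyclotomic n ℚ with hΦ
  have hirr : Irreducible Φ := cyclotomic.irreducible_rat hn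
  have hne := hl Φ (cyclotomic_ne_zero n ℚ)
  have hfin : FiniteMultiplicity Φ Q := FiniteMultiplicity.of_prime_left hirr.prime hQ
  obtain ⟨Q₁, hQ₁, hnd⟩ := hfin.exists_eq_pow_mul_and_not_dvd
  set b := multiplicity Φ Q
  have hcont : ∀ Q : ℚ[X], Tendsto (fun z : ℂ => aeval z Q) l (𝓝 (aeval ζ Q)) := fun Q =>
    (Q.continuous_aeval.tendsto ζ).mono_left hl0
  obtain ⟨Ψ, hΨ⟩ : Φ ∣ X ^ n - 1 := cyclotomic.dvd_X_pow_sub_one n ℚ
  have hgΦ : Tendsto (fun z => g z / (aeval z Φ) ^ 2) l (𝓝 0) := by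
    have h1 := hg.mul ((hcont Ψ).pow 2)
    rw [zero_mul] at h1
    refine h1.congr' ?_
    have hX : (X ^ n - 1 : ℚ[X]) ≠ 0 := by
      intro h
      have h2 := congrArg (fun p : ℚ[X] => p.coeff n) h
      simp [coeff_one, hn.ne'] at h2
    filter_upwards [hl _ hX, hne] with z hz1 hz2
    have h3 : (1 - z ^ n) = - (aeval z Φ * aeval z Ψ) := by
      rw [← map_mul, ← hΨ]
      simp
    have h4 : aeval z Ψ ≠ 0 := by
      intro h5
      rw [hΨ, map_mul, h5, mul_zero] at hz1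
      exact hz1 rfl
    rw [h3]
    field_simp
  have hP : Φ ^ (b + 2 + 1) ∣ P := by
    refine dvd_of_tendsto hζ hn hl0 hl (b + 2) P ?_
    have h1 := hgΦ.mul (hcont Q₁)
    rw [zero_mul] at h1
    refine h1.congr' ?_
    filter_upwards [E, hne] with z hz1 hz2
    rw [← hΦ, ← hz1, hQ₁, map_mul, map_pow]
    field_simp
    ring
  obtain ⟨P₁, hP₁⟩ := hP
  have hΦ0 : algebraMap ℚ[X] (RatFunc ℚ) Φ ≠ 0 := by simpa using cyclotomic_ne_zero n ℚ
  have hQ₁0 : Q₁ ≠ 0 := by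
    rintro rfl
    exact hnd (dvd_zero _)
  have hQ₁0' : algebraMap ℚ[X] (RatFunc ℚ) Q₁ ≠ 0 := by simpa using hQ₁0
  have hAB : A - B = algebraMap ℚ[X] (RatFunc ℚ) (Φ ^ 3 * P₁) / algebraMap ℚ[X] (RatFunc ℚ) Q₁ := by
    rw [eq_div_iff hQ₁0']
    rw [hQ₁, hP₁, map_mul, map_mul, map_pow, map_pow] at e
    rw [map_mul, map_pow]
    have h1 : (algebraMap ℚ[X] (RatFunc ℚ) Φ) ^ b ≠ 0 := pow_ne_zero _ hΦ0
    apply mul_left_cancel₀ h1
    rw [show b + 2 + 1 = b + 3 by ring, pow_add] at e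
    linear_combination e
  obtain ⟨d₁, hd₁m, hd₁⟩ := IsLocalization.integerNormalization_spec (nonZeroDivisors ℤ) P₁
  obtain ⟨d₂, hd₂m, hd₂⟩ := IsLocalization.integerNormalization_spec (nonZeroDivisors ℤ) Q₁
  set p' := IsLocalization.integerNormalization (nonZeroDivisors ℤ) P₁
  set q' := IsLocalization.integerNormalization (nonZeroDivisors ℤ) Q₁
  have hd₁0 : ((d₁ : ℤ) : ℚ) ≠ 0 := by
    exact_mod_cast nonZeroDivisors.ne_zero hd₁m
  have hd₂0 : ((d₂ : ℤ) : ℚ) ≠ 0 := by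
    exact_mod_cast nonZeroDivisors.ne_zero hd₂m
  have m1 : p'.map (Int.castRingHom ℚ) = C ((d₁ : ℤ) : ℚ) * P₁ := by
    have : Int.castRingHom ℚ = algebraMap ℤ ℚ := rfl
    rw [this, hd₁, ← smul_eq_C_mul]
    ext k
    simp
  have m2 : q'.map (Int.castRingHom ℚ) = C ((d₂ : ℤ) : ℚ) * Q₁ := by
    have : Int.castRingHom ℚ = algebraMap ℤ ℚ := rfl
    rw [this, hd₂, ← smul_eq_C_mul]
    ext k
    simp
  refine ⟨cyclotomic n ℤ ^ 3 * (C (d₂ : ℤ) * p'), C (d₁ : ℤ) * q', ?_, dvd_mul_right _ _, ?_⟩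
  · rw [Polynomial.map_mul, m2, map_C]
    have hc : IsCoprime Q₁ Φ := ((irreducible_iff_prime.1 hirr).coprime_iff_not_dvd.2 hnd).symm
    have u1 : IsUnit (C ((Int.castRingHom ℚ) (d₁ : ℤ))) := by
      rw [isUnit_C]
      exact isUnit_iff_ne_zero.2 hd₁0
    have u2 : IsUnit (C ((d₂ : ℤ) : ℚ)) := by
      rw [isUnit_C]
      exact isUnit_iff_ne_zero.2 hd₂0
    rw [isCoprime_mul_unit_left_left u1, isCoprime_mul_unit_left_left u2]
    exact hc
  · rw [hAB, Polynomial.map_mul, Polynomial.map_mul, Polynomial.map_mul, Polynomial.map_pow,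
      map_cyclotomic, m1, m2, map_C, map_C]
    have c1 : algebraMap ℚ[X] (RatFunc ℚ) (C ((d₁ : ℤ) : ℚ)) ≠ 0 := by simpa using hd₁0
    have c2 : algebraMap ℚ[X] (RatFunc ℚ) (C ((d₂ : ℤ) : ℚ)) ≠ 0 := by simpa using hd₂0
    simp only [map_mul, map_pow, eq_intCast]
    rw [← hΦ]
    field_simp

end Final


variable {K : Type*} [Field K]

/-- `(q^2;q^2)_k` -/
def P (q : K) (k : ℕ) : K := ∏ i ∈ range k, (1 - q ^ (2 * i + 2))
/-- `(q;q^2)_k` -/
def O (q : K) (k : ℕ) : K := ∏ i ∈ range k, (1 - q ^ (2 * i + 1))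
/-- `(q;q)_k` -/
def W (q : K) (k : ℕ) : K := ∏ i ∈ range k, (1 - q ^ (i + 1))

theorem P_succ (q : K) (k : ℕ) : P q (k + 1) = P q k * (1 - q ^ (2 * k + 2)) := prod_range_succ _ _
theorem O_succ (q : K) (k : ℕ) : O q (k + 1) = O q k * (1 - q ^ (2 * k + 1)) := prod_range_succ _ _
theorem W_succ (q : K) (k : ℕ) : W q (k + 1) = W q k * (1 - q ^ (k + 1)) := prod_range_succ _ _
@[simp] theorem P_zero (q : K) : P q 0 = 1 := rfl
@[simp] theorem O_zero (q : K) : O q 0 = 1 := rfl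
@[simp] theorem W_zero (q : K) : W q 0 = 1 := rfl

theorem P_ne_zero {q : K} (hq : ∀ k : ℕ, 1 - q ^ (k + 1) ≠ 0) (k : ℕ) : P q k ≠ 0 :=
  prod_ne_zero_iff.2 fun i _ => hq (2 * i + 1)
theorem O_ne_zero {q : K} (hq : ∀ k : ℕ, 1 - q ^ (k + 1) ≠ 0) (k : ℕ) : O q k ≠ 0 :=
  prod_ne_zero_iff.2 fun i _ => hq (2 * i)
theorem W_ne_zero {q : K} (hq : ∀ k : ℕ, 1 - q ^ (k + 1) ≠ 0) (k : ℕ) : W q k ≠ 0 :=
  prod_ne_zero_iff.2 fun i _ => hq i

theorem E_aux {q : K} (hq : ∀ k : ℕ, 1 - q ^ (k + 1) ≠ 0) (n : ℕ) :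
    ∑ N ∈ range (n + 1), q ^ N / (P q N * P q (n - N)) = 1 / W q n := by
  induction n with
  | zero => simp
  | succ n ih =>
    have h1 : ∑ N ∈ range (n + 1 + 1), q ^ N * (1 - q ^ (2 * (n + 1 - N))) / (P q N * P q (n + 1 - N))
        = ∑ N ∈ range (n + 1), q ^ N / (P q N * P q (n - N)) := by
      rw [sum_range_succ]
      simp only [Nat.sub_self, mul_zero, pow_zero, sub_self, zero_div, add_zero]
      refine sum_congr rfl fun N hN => ?_
      have hN' : N ≤ n := Nat.lt_succ_iff.1 (mem_range.1 hN)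
      rw [show n + 1 - N = (n - N) + 1 by omega, P_succ,
        show 2 * (n - N + 1) = 2 * (n - N) + 2 by ring]
      have h2 := P_ne_zero hq N
      have h3 := P_ne_zero hq (n - N)
      have h4 : 1 - q ^ (2 * (n - N) + 2) ≠ 0 := hq (2 * (n - N) + 1)
      field_simp
    have h2 : ∑ N ∈ range (n + 1 + 1), q ^ (n + 1 - N) / (P q N * P q (n + 1 - N))
        = ∑ N ∈ range (n + 1 + 1), q ^ N / (P q N * P q (n + 1 - N)) := by
      rw [← sum_range_reflect]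
      refine sum_congr rfl fun N hN => ?_
      have hN' : N ≤ n + 1 := Nat.lt_succ_iff.1 (mem_range.1 hN)
      rw [show n + 1 + 1 - 1 - N = n + 1 - N by omega, show n + 1 - (n + 1 - N) = N by omega,
        mul_comm]
    have h3 : ∑ N ∈ range (n + 1 + 1), q ^ N * (1 - q ^ (2 * (n + 1 - N))) / (P q N * P q (n + 1 - N))
        = ∑ N ∈ range (n + 1 + 1), q ^ N / (P q N * P q (n + 1 - N))
          - q ^ (n + 1) * ∑ N ∈ range (n + 1 + 1), q ^ (n + 1 - N) / (P q N * P q (n + 1 - N)) := by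
      rw [mul_sum, ← sum_sub_distrib]
      refine sum_congr rfl fun N hN => ?_
      have hN' : N ≤ n + 1 := Nat.lt_succ_iff.1 (mem_range.1 hN)
      have h4 : q ^ N * q ^ (2 * (n + 1 - N)) = q ^ (n + 1) * q ^ (n + 1 - N) := by
        rw [← pow_add, ← pow_add]
        congr 1
        omega
      rw [mul_sub, mul_one, h4]
      ring
    have h5 : (1 - q ^ (n + 1)) * ∑ N ∈ range (n + 1 + 1), q ^ N / (P q N * P q (n + 1 - N))
        = 1 / W q n := by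
      rw [← ih, ← h1, h3, h2]
      ring
    rw [W_succ, ← div_div, ← h5]
    have := hq n
    field_simp

/-- Exact formula for the left sum. -/
theorem L_formula {q : K} (hq : ∀ k : ℕ, 1 - q ^ (k + 1) ≠ 0) (n : ℕ) :
    ∑ k ∈ range n, q ^ k * O q k / W q k
      = O q n * ∑ N ∈ range n, q ^ N / ((1 - q ^ (2 * N + 1)) * P q N * P q (n - 1 - N)) := by
  induction n with
  | zero => simp
  | succ n ih =>
    rw [sum_range_succ, ih, Nat.add_sub_cancel]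
    have h1 : ∑ N ∈ range n, q ^ N / ((1 - q ^ (2 * N + 1)) * P q N * P q (n - 1 - N))
        = ∑ N ∈ range (n + 1), q ^ N * (1 - q ^ (2 * (n - N))) /
            ((1 - q ^ (2 * N + 1)) * P q N * P q (n - N)) := by
      rw [sum_range_succ]
      simp only [Nat.sub_self, mul_zero, pow_zero, sub_self, zero_div, add_zero]
      refine sum_congr rfl fun N hN => ?_
      have hN' : N < n := mem_range.1 hN
      rw [show n - N = (n - 1 - N) + 1 by omega, P_succ,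
        show 2 * (n - 1 - N + 1) = 2 * (n - 1 - N) + 2 by ring]
      have h2 := P_ne_zero hq N
      have h3 := P_ne_zero hq (n - 1 - N)
      have h4 : 1 - q ^ (2 * (n - 1 - N) + 2) ≠ 0 := hq (2 * (n - 1 - N) + 1)
      have h5 : 1 - q ^ (2 * N + 1) ≠ 0 := hq (2 * N)
      field_simp
    have h2 : ∑ N ∈ range (n + 1), q ^ N * (1 - q ^ (2 * n + 1)) /
            ((1 - q ^ (2 * N + 1)) * P q N * P q (n - N))
          - ∑ N ∈ range (n + 1), q ^ N * (1 - q ^ (2 * (n - N))) /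
            ((1 - q ^ (2 * N + 1)) * P q N * P q (n - N)) = q ^ n / W q n := by
      rw [← sum_sub_distrib, ← mul_one_div, ← E_aux hq n, mul_sum, ← sum_range_reflect]
      refine sum_congr rfl fun N hN => ?_
      have hN' : N ≤ n := Nat.lt_succ_iff.1 (mem_range.1 hN)
      rw [show n + 1 - 1 - N = n - N by omega, show n - (n - N) = N by omega]
      have h2 := P_ne_zero hq N
      have h3 := P_ne_zero hq (n - N)
      have h5 : 1 - q ^ (2 * (n - N) + 1) ≠ 0 := hq (2 * (n - N))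
      have h6 : q ^ (2 * n + 1) = q ^ (2 * N) * q ^ (2 * (n - N) + 1) := by
        rw [← pow_add]; congr 1; omega
      have h7 : q ^ n = q ^ N * q ^ (n - N) := by rw [← pow_add]; congr 1; omega
      have h8 : q ^ (2 * N) = q ^ N * q ^ N := by rw [← pow_add]; congr 1; omega
      rw [h6, h7, h8]
      field_simp
      ring
    have h3 : O q (n + 1) * ∑ N ∈ range (n + 1), q ^ N /
            ((1 - q ^ (2 * N + 1)) * P q N * P q (n - N)) =
        O q n * ∑ N ∈ range (n + 1), q ^ N * (1 - q ^ (2 * n + 1)) /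
            ((1 - q ^ (2 * N + 1)) * P q N * P q (n - N)) := by
      rw [O_succ, mul_assoc, mul_sum (s := range (n + 1)) (a := 1 - q ^ (2 * n + 1))]
      congr 1
      refine sum_congr rfl fun N hN => ?_
      ring
    rw [h3, h1]
    have h4 : ∑ N ∈ range (n + 1), q ^ N * (1 - q ^ (2 * n + 1)) /
            ((1 - q ^ (2 * N + 1)) * P q N * P q (n - N))
          = ∑ N ∈ range (n + 1), q ^ N * (1 - q ^ (2 * (n - N))) /
            ((1 - q ^ (2 * N + 1)) * P q N * P q (n - N)) + q ^ n / W q n := by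
      rw [← h2]; ring
    rw [h4]
    ring

/-- Exact formula for the right sum. -/
theorem R_formula {q : K} (hq : ∀ k : ℕ, 1 - q ^ (k + 1) ≠ 0) (n : ℕ) :
    ∑ k ∈ range n, q ^ (2 * k) * O q k ^ 2 / P q k ^ 2
      = O q n ^ 2 * ∑ j ∈ range n, q ^ (2 * (j * (j + 1))) * (1 + q ^ (2 * j + 1)) /
          ((1 - q ^ (2 * j + 1)) * P q (n + j) * P q (n - 1 - j)) := by
  induction n with
  | zero => simp
  | succ n ih =>
    rw [sum_range_succ, ih, Nat.add_sub_cancel]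
    have h1 : ∑ j ∈ range n, q ^ (2 * (j * (j + 1))) * (1 + q ^ (2 * j + 1)) /
          ((1 - q ^ (2 * j + 1)) * P q (n + j) * P q (n - 1 - j))
        = ∑ j ∈ range (n + 1), q ^ (2 * (j * (j + 1))) * (1 + q ^ (2 * j + 1)) *
            ((1 - q ^ (2 * (n + j) + 2)) * (1 - q ^ (2 * (n - j)))) /
          ((1 - q ^ (2 * j + 1)) * P q (n + 1 + j) * P q (n - j)) := by
      rw [sum_range_succ]
      simp only [Nat.sub_self, mul_zero, pow_zero, sub_self, zero_div, add_zero]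
      refine sum_congr rfl fun j hj => ?_
      have hj' : j < n := mem_range.1 hj
      rw [show n - j = (n - 1 - j) + 1 by omega, P_succ,
        show 2 * (n - 1 - j + 1) = 2 * (n - 1 - j) + 2 by ring,
        show n + 1 + j = (n + j) + 1 by ring, P_succ]
      have h2 := P_ne_zero hq (n + j)
      have h3 := P_ne_zero hq (n - 1 - j)
      have h4 : 1 - q ^ (2 * (n - 1 - j) + 2) ≠ 0 := hq (2 * (n - 1 - j) + 1)
      have h5 : 1 - q ^ (2 * j + 1) ≠ 0 := hq (2 * j)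
      have h6 : 1 - q ^ (2 * (n + j) + 2) ≠ 0 := hq (2 * (n + j) + 1)
      field_simp
    have htel : ∑ j ∈ range (n + 1), q ^ (2 * j ^ 2) * (1 - q ^ (4 * j + 2)) /
          (P q (n + 1 + j) * P q (n - j)) = 1 / P q n ^ 2 := by
      have : ∀ M ≤ n, ∑ j ∈ range (M + 1), q ^ (2 * j ^ 2) * (1 - q ^ (4 * j + 2)) /
          (P q (n + 1 + j) * P q (n - j)) = 1 / P q n ^ 2 -
            q ^ (2 * (M + 1) ^ 2) * (1 - q ^ (2 * (n - M))) / (P q (n + 1 + M) * P q (n - M)) := by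
        intro M hM
        induction M with
        | zero =>
          simp only [zero_add, range_one, sum_singleton, Nat.sub_zero, add_zero]
          rw [P_succ]
          have h3 := P_ne_zero hq n
          have h4 : 1 - q ^ (2 * n + 2) ≠ 0 := hq (2 * n + 1)
          field_simp
          ring
        | succ M ihM =>
          rw [sum_range_succ, ihM (by omega)]
          have e1 : P q (n - M) = P q (n - (M + 1)) * (1 - q ^ (2 * (n - M))) := by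
            rw [show n - M = (n - (M + 1)) + 1 by omega, P_succ]
            congr 3
          have e2 : P q (n + 1 + (M + 1)) = P q (n + 1 + M) * (1 - q ^ (2 * (n + 1 + M) + 2)) := by
            rw [show n + 1 + (M + 1) = (n + 1 + M) + 1 by ring, P_succ]
          rw [e1, e2]
          have h3 := P_ne_zero hq (n - (M + 1))
          have h4 := P_ne_zero hq (n + 1 + M)
          have h5 : 1 - q ^ (2 * (n - M)) ≠ 0 := by
            have := hq (2 * (n - M) - 1)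
            rwa [show 2 * (n - M) - 1 + 1 = 2 * (n - M) by omega] at this
          have h6 : 1 - q ^ (2 * (n + 1 + M) + 2) ≠ 0 := hq (2 * (n + 1 + M) + 1)
          have h7 : q ^ (2 * (n + 1 + M) + 2) = q ^ (2 * (n - (M + 1))) * q ^ (4 * (M + 1) + 2) := by
            rw [← pow_add]; congr 1; omega
          have h8 : q ^ (2 * (M + 1 + 1) ^ 2) = q ^ (2 * (M + 1) ^ 2) * q ^ (4 * (M + 1) + 2) := by
            rw [← pow_add]; congr 1; ring
          rw [h8]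
          rw [h7] at h6 ⊢
          generalize q ^ (2 * (n - (M + 1))) = A at *
          generalize q ^ (4 * (M + 1) + 2) = B at *
          generalize q ^ (2 * (n - M)) = C at *
          generalize q ^ (2 * (M + 1) ^ 2) = D at *
          have h9 := P_ne_zero hq n
          have key : D * (1 - C) / (P q (n + 1 + M) * (P q (n - (M + 1)) * (1 - C)))
              = D * (1 - A * B) / (P q (n + 1 + M) * (1 - A * B) * P q (n - (M + 1))) := by
            field_simp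
          rw [key, sub_add, ← sub_div]
          congr 2
          ring
      rw [this n le_rfl]
      simp
    have h2 : ∑ j ∈ range (n + 1), q ^ (2 * (j * (j + 1))) * (1 + q ^ (2 * j + 1)) *
            (1 - q ^ (2 * n + 1)) ^ 2 /
          ((1 - q ^ (2 * j + 1)) * P q (n + 1 + j) * P q (n - j))
        - ∑ j ∈ range (n + 1), q ^ (2 * (j * (j + 1))) * (1 + q ^ (2 * j + 1)) *
            ((1 - q ^ (2 * (n + j) + 2)) * (1 - q ^ (2 * (n - j)))) /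
          ((1 - q ^ (2 * j + 1)) * P q (n + 1 + j) * P q (n - j)) = q ^ (2 * n) / P q n ^ 2 := by
      rw [← sum_sub_distrib, ← mul_one_div, ← htel, mul_sum]
      refine sum_congr rfl fun j hj => ?_
      have hj' : j ≤ n := Nat.lt_succ_iff.1 (mem_range.1 hj)
      have h2 := P_ne_zero hq (n + 1 + j)
      have h3 := P_ne_zero hq (n - j)
      have h5 : 1 - q ^ (2 * j + 1) ≠ 0 := hq (2 * j)
      obtain ⟨d, rfl⟩ := Nat.exists_eq_add_of_le hj'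
      rw [show j + d - j = d by omega] at *
      have e1 : q ^ (2 * (j + d) + 1) = q ^ (2 * d) * q ^ (2 * j + 1) := by
        rw [← pow_add]; congr 1; ring
      have e2 : q ^ (2 * (j + d + j) + 2) = q ^ (2 * d) * q ^ (2 * j + 1) * q ^ (2 * j + 1) := by
        rw [← pow_add, ← pow_add]; congr 1; ring
      have e3 : q ^ (2 * (j * (j + 1))) = q ^ (2 * j ^ 2) * q ^ (2 * j) := by
        rw [← pow_add]; congr 1; ring
      have e4 : q ^ (4 * j + 2) = q ^ (2 * j + 1) * q ^ (2 * j + 1) := by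
        rw [← pow_add]; congr 1; ring
      have e5 : q ^ (2 * (j + d)) = q ^ (2 * j) * q ^ (2 * d) := by
        rw [← pow_add]; congr 1; ring
      rw [e1, e2, e3, e4, e5]
      field_simp
      ring
    have h3 : O q (n + 1) ^ 2 * ∑ j ∈ range (n + 1), q ^ (2 * (j * (j + 1))) * (1 + q ^ (2 * j + 1)) /
            ((1 - q ^ (2 * j + 1)) * P q (n + 1 + j) * P q (n - j)) =
        O q n ^ 2 * ∑ j ∈ range (n + 1), q ^ (2 * (j * (j + 1))) * (1 + q ^ (2 * j + 1)) *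
            (1 - q ^ (2 * n + 1)) ^ 2 /
          ((1 - q ^ (2 * j + 1)) * P q (n + 1 + j) * P q (n - j)) := by
      rw [O_succ, mul_pow, mul_assoc, mul_sum (s := range (n + 1)) (a := (1 - q ^ (2 * n + 1)) ^ 2)]
      congr 1
      refine sum_congr rfl fun N hN => ?_
      ring
    rw [h3, h1]
    rw [sub_eq_iff_eq_add.1 h2]
    ring


theorem sum_split {M : Type*} [AddCommMonoid M] (f : ℕ → M) (s : ℕ) :
    ∑ N ∈ range (2 * s + 1), f N = f s + ∑ N ∈ range s, (f N + f (2 * s - N)) := by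
  rw [show 2 * s + 1 = s + 1 + s by ring, sum_range_add, sum_range_succ, sum_add_distrib]
  have : ∑ x ∈ range s, f (s + 1 + x) = ∑ x ∈ range s, f (2 * s - x) := by
    rw [← sum_range_reflect]
    refine sum_congr rfl fun i hi => ?_
    have := mem_range.1 hi
    congr 1
    omega
  rw [this]
  rw [add_comm (∑ x ∈ range s, f x) (f s), add_assoc]

/-- `(q;q^2)_{2s+1} / (1 - q^{2s+1})` -/
def Oh (q : K) (s : ℕ) : K := O q s * ∏ i ∈ range s, (1 - q ^ (2 * s + 1) * q ^ (2 * i + 2))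

/-- `(v^2 q^2; q^2)_j` with `v = q^n`. -/
def Y (q : K) (n j : ℕ) : K := ∏ i ∈ range j, (1 - (q ^ n) ^ 2 * q ^ (2 * i + 2))

theorem O_eq (q : K) (s : ℕ) : O q (2 * s + 1) = (1 - q ^ (2 * s + 1)) * Oh q s := by
  unfold Oh
  rw [show 2 * s + 1 = s + 1 + s by ring]
  unfold O
  rw [prod_range_add, prod_range_succ]
  have : ∏ x ∈ range s, (1 - q ^ (2 * (s + 1 + x) + 1)) =
      ∏ x ∈ range s, (1 - q ^ (s + 1 + s) * q ^ (2 * x + 2)) := by
    refine prod_congr rfl fun i _ => ?_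
    rw [← pow_add]
    congr 2
    ring
  rw [this, show 2 * s + 1 = s + 1 + s by ring]
  ring

theorem P_add (q : K) (s j : ℕ) : P q (2 * s + 1 + j) =
    P q (2 * s) * (1 - (q ^ (2 * s + 1)) ^ 2) * Y q (2 * s + 1) j := by
  unfold P Y
  rw [prod_range_add, prod_range_succ]
  congr 1
  · congr 2
    rw [← pow_mul]
    congr 1
    ring
  · refine prod_congr rfl fun i _ => ?_
    rw [← pow_mul, ← pow_add]
    congr 2
    ring

/-- Left sum, split into the main term and pairs. -/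
theorem L_split {q : K} (hq : ∀ k : ℕ, 1 - q ^ (k + 1) ≠ 0) (s : ℕ) :
    ∑ k ∈ range (2 * s + 1), q ^ k * O q k / W q k
      = q ^ s * Oh q s / P q s ^ 2 + (1 - q ^ (2 * s + 1)) ^ 2 *
        ∑ N ∈ range s, Oh q s * q ^ N * (1 + q ^ (2 * s - 2 * N)) /
          (P q N * P q (2 * s - N) * (1 - q ^ (2 * N + 1)) * (1 - q ^ (4 * s + 1 - 2 * N))) := by
  rw [L_formula hq, sum_split, O_eq, mul_add, mul_sum, mul_sum]
  congr 1
  · rw [Nat.add_sub_cancel, show 2 * s - s = s by omega]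
    have h2 := P_ne_zero hq s
    have h5 : 1 - q ^ (2 * s + 1) ≠ 0 := hq (2 * s)
    field_simp
  · refine sum_congr rfl fun N hN => ?_
    have hN' := mem_range.1 hN
    rw [Nat.add_sub_cancel, show 2 * s - (2 * s - N) = N by omega]
    have h2 := P_ne_zero hq N
    have h3 := P_ne_zero hq (2 * s - N)
    have h4 : 1 - q ^ (2 * N + 1) ≠ 0 := hq (2 * N)
    have h5 : 1 - q ^ (4 * s + 1 - 2 * N) ≠ 0 := by
      have := hq (4 * s - 2 * N)
      rwa [show 4 * s - 2 * N + 1 = 4 * s + 1 - 2 * N by omega] at this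
    rw [show 2 * (2 * s - N) + 1 = 4 * s + 1 - 2 * N by omega]
    have e1 : q ^ (4 * s + 1 - 2 * N) = (q ^ (2 * s - 2 * N)) ^ 2 * q ^ (2 * N + 1) := by
      rw [← pow_mul, ← pow_add]; congr 1; omega
    have e2 : q ^ (2 * s + 1) = q ^ (2 * s - 2 * N) * q ^ (2 * N + 1) := by
      rw [← pow_add]; congr 1; omega
    have e3 : q ^ (2 * s - N) = q ^ (2 * s - 2 * N) * q ^ N := by
      rw [← pow_add]; congr 1; omega
    rw [e1] at h5 ⊢
    rw [e2, e3]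
    generalize q ^ (2 * s - 2 * N) = u at *
    generalize q ^ (2 * N + 1) = z at *
    field_simp
    ring

/-- Right sum, split into the main term and pairs. -/
theorem R_split {q : K} (hq : ∀ k : ℕ, 1 - q ^ (k + 1) ≠ 0) (s : ℕ) :
    ∑ k ∈ range (2 * s + 1), q ^ (2 * k) * O q k ^ 2 / P q k ^ 2
      = q ^ (2 * (s * (s + 1))) * Oh q s ^ 2 / (P q (2 * s) * Y q (2 * s + 1) s * P q s) +
        (1 - q ^ (2 * s + 1)) ^ 2 *
        ∑ j ∈ range s, (Oh q s ^ 2 / (P q (2 * s) * (1 + q ^ (2 * s + 1)) * P q j * P q (2 * s - j))) *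
          (q ^ (2 * (j * (j + 1))) * ((1 + q ^ (2 * j + 1)) / (1 - q ^ (2 * j + 1)) *
              (P q j / Y q (2 * s + 1) j)
            + (q ^ (2 * s + 1)) ^ (4 * (s - j)) * ((1 + q ^ (4 * s + 1 - 2 * j)) / (1 - q ^ (4 * s + 1 - 2 * j))) *
              (P q (2 * s - j) / Y q (2 * s + 1) (2 * s - j))) / (1 - q ^ (2 * s + 1))) := by
  have hY : ∀ j, Y q (2 * s + 1) j ≠ 0 := by
    intro j
    refine prod_ne_zero_iff.2 fun i _ => ?_
    have := hq (4 * s + 2 + 2 * i + 1)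
    rwa [show 4 * s + 2 + 2 * i + 1 + 1 = (2 * s + 1) * 2 + (2 * i + 2) by ring, pow_add,
      pow_mul] at this
  have hv : 1 - (q ^ (2 * s + 1)) ^ 2 ≠ 0 := by
    have := hq (4 * s + 1)
    rwa [show 4 * s + 1 + 1 = (2 * s + 1) * 2 by ring, pow_mul] at this
  have hv1 : 1 - q ^ (2 * s + 1) ≠ 0 := hq (2 * s)
  have hv2 : 1 + q ^ (2 * s + 1) ≠ 0 := by
    intro h
    apply hv
    have : 1 - (q ^ (2 * s + 1)) ^ 2 = (1 - q ^ (2 * s + 1)) * (1 + q ^ (2 * s + 1)) := by ring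
    rw [this, h, mul_zero]
  rw [R_formula hq, sum_split, O_eq, mul_add, mul_sum, mul_sum]
  congr 1
  · rw [Nat.add_sub_cancel, show 2 * s - s = s by omega, P_add]
    have h2 := P_ne_zero hq s
    have h3 := P_ne_zero hq (2 * s)
    have h4 := hY s
    have h6 : 1 - (q ^ (2 * s + 1)) ^ 2 = (1 - q ^ (2 * s + 1)) * (1 + q ^ (2 * s + 1)) := by ring
    rw [h6]
    field_simp
  · refine sum_congr rfl fun j hj => ?_
    have hj' := mem_range.1 hj
    rw [Nat.add_sub_cancel, show 2 * s - (2 * s - j) = j by omega, P_add, P_add]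
    have h2 := P_ne_zero hq j
    have h3 := P_ne_zero hq (2 * s - j)
    have h3' := P_ne_zero hq (2 * s)
    have h4 : 1 - q ^ (2 * j + 1) ≠ 0 := hq (2 * j)
    have h5 : 1 - q ^ (4 * s + 1 - 2 * j) ≠ 0 := by
      have := hq (4 * s - 2 * j)
      rwa [show 4 * s - 2 * j + 1 = 4 * s + 1 - 2 * j by omega] at this
    have h6 : 1 - (q ^ (2 * s + 1)) ^ 2 = (1 - q ^ (2 * s + 1)) * (1 + q ^ (2 * s + 1)) := by ring
    have e1 : q ^ (2 * ((2 * s - j) * (2 * s - j + 1))) =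
        q ^ (2 * (j * (j + 1))) * (q ^ (2 * s + 1)) ^ (4 * (s - j)) := by
      rw [← pow_mul, ← pow_add]
      congr 1
      obtain ⟨d, rfl⟩ := Nat.exists_eq_add_of_le hj'.le
      rw [show j + d - j = d by omega, show 2 * (j + d) - j = j + 2 * d by omega]
      ring
    rw [show 2 * (2 * s - j) + 1 = 4 * s + 1 - 2 * j by omega, e1, h6]
    have h7 := hY j
    have h8 := hY (2 * s - j)
    field_simp


theorem prod_w (q : K) (s : ℕ) : ∏ i ∈ range s, q ^ (2 * i + 2) = q ^ (s * (s + 1)) := by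
  rw [prod_pow_eq_pow_sum]
  congr 1
  induction s with
  | zero => simp
  | succ s ih => rw [sum_range_succ, ih]; ring

theorem O_reflect (q : K) (hq0 : q ≠ 0) (s : ℕ) :
    O q s = ∏ i ∈ range s, (1 - q ^ (2 * s + 1) / q ^ (2 * i + 2)) := by
  unfold O
  rw [← prod_range_reflect]
  refine prod_congr rfl fun i hi => ?_
  have := mem_range.1 hi
  rw [div_eq_mul_inv]
  have e1 : q ^ (2 * s + 1) = q ^ (2 * (s - 1 - i) + 1) * q ^ (2 * i + 2) := by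
    rw [← pow_add]; congr 1; omega
  rw [e1]
  field_simp

theorem P_two (q : K) (hq0 : q ≠ 0) (s : ℕ) :
    P q (2 * s) = P q s * ∏ i ∈ range s, (1 - (q ^ (2 * s + 1)) ^ 2 / q ^ (2 * i + 2)) := by
  unfold P
  rw [two_mul, prod_range_add]
  congr 1
  rw [← prod_range_reflect]
  refine prod_congr rfl fun i hi => ?_
  have := mem_range.1 hi
  have e1 : (q ^ (s + s + 1)) ^ 2 = q ^ (2 * (s + (s - 1 - i)) + 2) * q ^ (2 * i + 2) := by
    rw [← pow_add, ← pow_mul]; congr 1; omega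
  rw [e1]
  field_simp

/-- The main term of the left sum. -/
theorem main_L {q : K} (hq : ∀ k : ℕ, 1 - q ^ (k + 1) ≠ 0) (hq0 : q ≠ 0) (s : ℕ) :
    q ^ s * Oh q s / P q s ^ 2 = (-1) ^ s * q ^ (s * (s + 1)) *
      ∏ i ∈ range s, (1 - (1 - q ^ (2 * s + 1)) ^ 2 *
        (q ^ (2 * i + 2) / (q ^ (2 * s + 1) * (1 - q ^ (2 * i + 2)) ^ 2))) := by
  unfold Oh
  rw [O_reflect q hq0, ← prod_mul_distrib]
  unfold P
  rw [← prod_pow, mul_div_assoc, ← prod_div_distrib]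
  have h1 : ∀ i ∈ range s, (1 - q ^ (2 * s + 1) / q ^ (2 * i + 2)) * (1 - q ^ (2 * s + 1) * q ^ (2 * i + 2)) /
      (1 - q ^ (2 * i + 2)) ^ 2 = (-1) * q ^ (2 * s + 1) * (q ^ (2 * i + 2))⁻¹ *
      (1 - (1 - q ^ (2 * s + 1)) ^ 2 *
        (q ^ (2 * i + 2) / (q ^ (2 * s + 1) * (1 - q ^ (2 * i + 2)) ^ 2))) := by
    intro i _
    have h2 : 1 - q ^ (2 * i + 2) ≠ 0 := hq (2 * i + 1)
    have h3 : q ^ (2 * i + 2) ≠ 0 := pow_ne_zero _ hq0
    have h4 : q ^ (2 * s + 1) ≠ 0 := pow_ne_zero _ hq0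
    generalize q ^ (2 * i + 2) = w at *
    generalize q ^ (2 * s + 1) = v at *
    field_simp
    ring
  rw [prod_congr rfl h1, prod_mul_distrib, prod_mul_distrib, prod_const, prod_inv_distrib,
    prod_w, card_range, mul_pow]
  have h5 : q ^ s * (q ^ (2 * s + 1)) ^ s = q ^ (s * (s + 1)) * q ^ (s * (s + 1)) := by
    rw [← pow_mul, ← pow_add, ← pow_add]; congr 1; ring
  have h6 : q ^ (s * (s + 1)) ≠ 0 := pow_ne_zero _ hq0
  generalize ∏ i ∈ range s, (1 - (1 - q ^ (2 * s + 1)) ^ 2 *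
        (q ^ (2 * i + 2) / (q ^ (2 * s + 1) * (1 - q ^ (2 * i + 2)) ^ 2))) = X
  have h7 : q ^ s * ((-1) ^ s * (q ^ (2 * s + 1)) ^ s * (q ^ (s * (s + 1)))⁻¹ * X)
      = (-1) ^ s * (q ^ s * (q ^ (2 * s + 1)) ^ s) * (q ^ (s * (s + 1)))⁻¹ * X := by ring
  rw [h7, h5]
  generalize q ^ (s * (s + 1)) = W at *
  field_simp

/-- The main term of the right sum. -/
theorem main_R {q : K} (hq : ∀ k : ℕ, 1 - q ^ (k + 1) ≠ 0) (hq0 : q ≠ 0) (s : ℕ) :
    q ^ (2 * (s * (s + 1))) * Oh q s ^ 2 / (P q (2 * s) * Y q (2 * s + 1) s * P q s) =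
      (-1) ^ s * q ^ (s * (s + 1)) *
      ∏ i ∈ range s, ((1 - (1 - q ^ (2 * s + 1)) ^ 2 *
        (q ^ (2 * i + 2) / (q ^ (2 * s + 1) * (1 - q ^ (2 * i + 2)) ^ 2))) ^ 2 /
        (1 - (1 - (q ^ (2 * s + 1)) ^ 2) ^ 2 *
        (q ^ (2 * i + 2) / ((q ^ (2 * s + 1)) ^ 2 * (1 - q ^ (2 * i + 2)) ^ 2)))) := by
  unfold Oh
  rw [O_reflect q hq0, ← prod_mul_distrib, P_two q hq0]
  unfold P Y
  rw [mul_div_assoc, ← prod_pow, ← prod_mul_distrib, ← prod_mul_distrib, ← prod_mul_distrib,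
    ← prod_div_distrib]
  have h1 : ∀ i ∈ range s, ((1 - q ^ (2 * s + 1) / q ^ (2 * i + 2)) *
      (1 - q ^ (2 * s + 1) * q ^ (2 * i + 2))) ^ 2 /
      ((1 - q ^ (2 * i + 2)) * (1 - (q ^ (2 * s + 1)) ^ 2 / q ^ (2 * i + 2)) *
        (1 - (q ^ (2 * s + 1)) ^ 2 * q ^ (2 * i + 2)) * (1 - q ^ (2 * i + 2))) =
      (-1) * (q ^ (2 * i + 2))⁻¹ *
      ((1 - (1 - q ^ (2 * s + 1)) ^ 2 *
        (q ^ (2 * i + 2) / (q ^ (2 * s + 1) * (1 - q ^ (2 * i + 2)) ^ 2))) ^ 2 /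
        (1 - (1 - (q ^ (2 * s + 1)) ^ 2) ^ 2 *
        (q ^ (2 * i + 2) / ((q ^ (2 * s + 1)) ^ 2 * (1 - q ^ (2 * i + 2)) ^ 2)))) := by
    intro i hi
    have hi' := mem_range.1 hi
    have h2 : 1 - q ^ (2 * i + 2) ≠ 0 := hq (2 * i + 1)
    have h3 : q ^ (2 * i + 2) ≠ 0 := pow_ne_zero _ hq0
    have h4 : q ^ (2 * s + 1) ≠ 0 := pow_ne_zero _ hq0
    have h5 : 1 - (q ^ (2 * s + 1)) ^ 2 * q ^ (2 * i + 2) ≠ 0 := by
      have := hq (4 * s + 2 + 2 * i + 1)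
      rwa [show 4 * s + 2 + 2 * i + 1 + 1 = (2 * s + 1) * 2 + (2 * i + 2) by ring, pow_add,
        pow_mul] at this
    have h6 : 1 - (q ^ (2 * s + 1)) ^ 2 / q ^ (2 * i + 2) ≠ 0 := by
      have := hq (4 * s - 2 * i - 1)
      have e1 : (q ^ (2 * s + 1)) ^ 2 = q ^ (4 * s - 2 * i - 1 + 1) * q ^ (2 * i + 2) := by
        rw [← pow_add, ← pow_mul]; congr 1; omega
      rw [e1, mul_div_assoc, div_self h3, mul_one]
      exact this
    have h7 : 1 - (1 - (q ^ (2 * s + 1)) ^ 2) ^ 2 *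
        (q ^ (2 * i + 2) / ((q ^ (2 * s + 1)) ^ 2 * (1 - q ^ (2 * i + 2)) ^ 2)) =
        - (q ^ (2 * i + 2) / ((q ^ (2 * s + 1)) ^ 2 * (1 - q ^ (2 * i + 2)) ^ 2)) *
         ((1 - (q ^ (2 * s + 1)) ^ 2 / q ^ (2 * i + 2)) *
        (1 - (q ^ (2 * s + 1)) ^ 2 * q ^ (2 * i + 2))) := by
      generalize q ^ (2 * i + 2) = w at *
      generalize q ^ (2 * s + 1) = v at *
      field_simp
      ring
    have h8 : 1 - (1 - q ^ (2 * s + 1)) ^ 2 *
        (q ^ (2 * i + 2) / (q ^ (2 * s + 1) * (1 - q ^ (2 * i + 2)) ^ 2)) =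
        - (q ^ (2 * i + 2) / (q ^ (2 * s + 1) * (1 - q ^ (2 * i + 2)) ^ 2)) *
         ((1 - q ^ (2 * s + 1) / q ^ (2 * i + 2)) *
        (1 - q ^ (2 * s + 1) * q ^ (2 * i + 2))) := by
      generalize q ^ (2 * i + 2) = w at *
      generalize q ^ (2 * s + 1) = v at *
      field_simp
      ring
    rw [h7, h8]
    generalize (1 - q ^ (2 * s + 1) / q ^ (2 * i + 2)) * (1 - q ^ (2 * s + 1) * q ^ (2 * i + 2)) = A at *
    generalize 1 - (q ^ (2 * s + 1)) ^ 2 * q ^ (2 * i + 2) = B at *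
    generalize 1 - (q ^ (2 * s + 1)) ^ 2 / q ^ (2 * i + 2) = C at *
    generalize q ^ (2 * i + 2) = w at *
    generalize q ^ (2 * s + 1) = v at *
    field_simp
  rw [prod_congr rfl h1, prod_mul_distrib, prod_mul_distrib, prod_const, prod_inv_distrib,
    prod_w, card_range]
  have h6 : q ^ (s * (s + 1)) ≠ 0 := pow_ne_zero _ hq0
  rw [show 2 * (s * (s + 1)) = s * (s + 1) + s * (s + 1) by ring, pow_add]
  generalize ∏ i ∈ range s, ((1 - (1 - q ^ (2 * s + 1)) ^ 2 *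
        (q ^ (2 * i + 2) / (q ^ (2 * s + 1) * (1 - q ^ (2 * i + 2)) ^ 2))) ^ 2 /
        (1 - (1 - (q ^ (2 * s + 1)) ^ 2) ^ 2 *
        (q ^ (2 * i + 2) / ((q ^ (2 * s + 1)) ^ 2 * (1 - q ^ (2 * i + 2)) ^ 2)))) = X
  generalize q ^ (s * (s + 1)) = W at *
  field_simp



theorem tendsto_prod_aux {l : Filter ℂ} {x : ℂ → ℂ} (hx : Tendsto x l (𝓝 0))
    (hx0 : ∀ᶠ z in l, x z ≠ 0) (s : ℕ) (h : ℕ → ℂ → ℂ) (h0 : ℕ → ℂ)
    (hh : ∀ i < s, Tendsto (h i) l (𝓝 (h0 i))) :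
    Tendsto (fun z => (∏ i ∈ range s, (1 + x z * h i z) - 1) / x z) l
      (𝓝 (∑ i ∈ range s, h0 i)) := by
  induction s with
  | zero => simpa using tendsto_const_nhds
  | succ s ih =>
    have h1 := ih (fun i hi => hh i (by omega))
    have h2 := hh s (by omega)
    have h3 : Tendsto (fun z => (∏ i ∈ range s, (1 + x z * h i z) - 1) / x z *
        (1 + x z * h s z) + h s z) l (𝓝 ((∑ i ∈ range s, h0 i) * (1 + 0 * h0 s) + h0 s)) :=
      (h1.mul (tendsto_const_nhds.add (hx.mul h2))).add h2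
    rw [zero_mul, add_zero, mul_one, ← sum_range_succ] at h3
    refine h3.congr' ?_
    filter_upwards [hx0] with z hz
    rw [prod_range_succ]
    field_simp
    ring

theorem aux_frac {x N D M : ℂ} (hD : D ≠ 0) (h : D + x * N = M) : 1 + x * (N / D) = M / D := by
  rw [eq_div_iff hD, add_mul, one_mul, mul_assoc, div_mul_cancel₀ _ hD, h]

section Limits

variable {s : ℕ} {ζ : ℂ}

theorem pow_ne_one_of_ball {z : ℂ} (hz : z ∈ Metric.ball (0 : ℂ) 1) (k : ℕ) : 1 - z ^ (k + 1) ≠ 0 := by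
  intro h
  have h1 : ‖z ^ (k + 1)‖ < 1 := by
    rw [norm_pow]
    exact pow_lt_one₀ (norm_nonneg _) (by simpa using hz) (by omega)
  rw [← sub_eq_zero.1 h] at h1
  simp at h1

theorem ev_good (hζ : IsPrimitiveRoot ζ (2 * s + 1)) :
    ∀ᶠ z in 𝓝[Metric.ball (0 : ℂ) 1] ζ, z ≠ 0 ∧ ∀ k : ℕ, 1 - z ^ (k + 1) ≠ 0 := by
  have h1 : ∀ᶠ z in 𝓝[Metric.ball (0 : ℂ) 1] ζ, z ≠ 0 :=
    (continuousAt_id.eventually_ne (hζ.ne_zero (by omega))).filter_mono nhdsWithin_le_nhds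
  filter_upwards [h1, self_mem_nhdsWithin] with z hz hz'
  exact ⟨hz, pow_ne_one_of_ball hz'⟩

theorem tendsto_x (hζ : IsPrimitiveRoot ζ (2 * s + 1)) :
    Tendsto (fun z : ℂ => 1 - z ^ (2 * s + 1)) (𝓝[Metric.ball (0 : ℂ) 1] ζ) (𝓝 0) := by
  have : Continuous (fun z : ℂ => 1 - z ^ (2 * s + 1)) := by fun_prop
  have h := this.tendsto ζ
  rw [hζ.pow_eq_one, sub_self] at h
  exact h.mono_left nhdsWithin_le_nhds

theorem cont_P (k : ℕ) : Continuous (fun z : ℂ => P z k) := by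
  unfold P; fun_prop
theorem cont_O (k : ℕ) : Continuous (fun z : ℂ => O z k) := by
  unfold O; fun_prop
theorem cont_Oh (k : ℕ) : Continuous (fun z : ℂ => Oh z k) := by
  unfold Oh O; fun_prop
theorem cont_Y (n k : ℕ) : Continuous (fun z : ℂ => Y z n k) := by
  unfold Y; fun_prop

theorem ne_one (hζ : IsPrimitiveRoot ζ (2 * s + 1)) {k : ℕ} (h : ¬ (2 * s + 1) ∣ k) :
    1 - ζ ^ k ≠ 0 := by
  intro h'
  exact h (hζ.dvd_of_pow_eq_one k (sub_eq_zero.1 h').symm)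

theorem not_dvd_even {i : ℕ} (hi : i < 2 * s) : ¬ (2 * s + 1) ∣ (2 * i + 2) := by
  intro h
  have h1 : (2 * s + 1) ∣ (i + 1) := by
    have : Nat.Coprime (2 * s + 1) 2 := by
      rw [Nat.coprime_two_right]
      exact ⟨s, rfl⟩
    refine this.dvd_of_dvd_mul_left ?_
    rwa [show 2 * (i + 1) = 2 * i + 2 by ring]
  have := Nat.le_of_dvd (by omega) h1
  omega

theorem not_dvd_odd {i : ℕ} (hi : i < s) : ¬ (2 * s + 1) ∣ (2 * i + 1) := by
  intro h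
  have := Nat.le_of_dvd (by omega) h
  omega

theorem not_dvd_odd' {i : ℕ} (hi : i < s) : ¬ (2 * s + 1) ∣ (4 * s + 1 - 2 * i) := by
  intro h
  obtain ⟨c, hc⟩ := h
  have h1 : (2 * s + 1) * 1 < (2 * s + 1) * c := by omega
  have h2 : (2 * s + 1) * c < (2 * s + 1) * 2 := by omega
  have h3 := Nat.lt_of_mul_lt_mul_left h1
  have h4 := Nat.lt_of_mul_lt_mul_left h2
  omega

theorem P_zeta_ne (hζ : IsPrimitiveRoot ζ (2 * s + 1)) {k : ℕ} (hk : k ≤ 2 * s) : P ζ k ≠ 0 :=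
  prod_ne_zero_iff.2 fun i hi => ne_one hζ (not_dvd_even (by have := mem_range.1 hi; omega))

theorem Y_zeta (hζ : IsPrimitiveRoot ζ (2 * s + 1)) (k : ℕ) : Y ζ (2 * s + 1) k = P ζ k := by
  unfold Y P
  rw [hζ.pow_eq_one]
  simp

theorem limit_L (hζ : IsPrimitiveRoot ζ (2 * s + 1)) :
    Tendsto (fun z : ℂ => (∑ k ∈ range (2 * s + 1), z ^ k * O z k / W z k -
        (-1) ^ s * z ^ (s * (s + 1))) / (1 - z ^ (2 * s + 1)) ^ 2)
      (𝓝[Metric.ball (0 : ℂ) 1] ζ)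
      (𝓝 ((-1) ^ s * ζ ^ (s * (s + 1)) * ∑ i ∈ range s, - (ζ ^ (2 * i + 2) / (1 - ζ ^ (2 * i + 2)) ^ 2) +
        ∑ N ∈ range s, Oh ζ s * ζ ^ N * (1 + ζ ^ (2 * s - 2 * N)) /
          (P ζ N * P ζ (2 * s - N) * (1 - ζ ^ (2 * N + 1)) * (1 - ζ ^ (4 * s + 1 - 2 * N))))) := by
  have h1 := tendsto_prod_aux (l := 𝓝[Metric.ball (0 : ℂ) 1] ζ)
    (x := fun z : ℂ => (1 - z ^ (2 * s + 1)) ^ 2) (by simpa using (tendsto_x hζ).pow 2)
    ((ev_good hζ).mono fun z hz => pow_ne_zero 2 (hz.2 (2 * s))) s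
    (fun i z => - (z ^ (2 * i + 2) / (z ^ (2 * s + 1) * (1 - z ^ (2 * i + 2)) ^ 2)))
    (fun i => - (ζ ^ (2 * i + 2) / (1 - ζ ^ (2 * i + 2)) ^ 2)) (by
      intro i hi
      have h2 : 1 - ζ ^ (2 * i + 2) ≠ 0 := ne_one hζ (not_dvd_even (by omega))
      have h3 : ContinuousAt (fun z : ℂ => - (z ^ (2 * i + 2) / (z ^ (2 * s + 1) *
          (1 - z ^ (2 * i + 2)) ^ 2))) ζ := by
        refine ContinuousAt.neg (ContinuousAt.div (by fun_prop) (by fun_prop) ?_)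
        exact mul_ne_zero (pow_ne_zero _ (hζ.ne_zero (by omega))) (pow_ne_zero _ h2)
      have h4 := h3.tendsto
      rw [hζ.pow_eq_one, one_mul] at h4
      exact h4.mono_left nhdsWithin_le_nhds)
  have h2 : Tendsto (fun z : ℂ => (-1) ^ s * z ^ (s * (s + 1))) (𝓝[Metric.ball (0 : ℂ) 1] ζ)
      (𝓝 ((-1) ^ s * ζ ^ (s * (s + 1)))) := by
    have : Continuous (fun z : ℂ => (-1) ^ s * z ^ (s * (s + 1))) := by fun_prop
    exact (this.tendsto ζ).mono_left nhdsWithin_le_nhds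
  have h3 : Tendsto (fun z : ℂ => ∑ N ∈ range s, Oh z s * z ^ N * (1 + z ^ (2 * s - 2 * N)) /
          (P z N * P z (2 * s - N) * (1 - z ^ (2 * N + 1)) * (1 - z ^ (4 * s + 1 - 2 * N))))
      (𝓝[Metric.ball (0 : ℂ) 1] ζ)
      (𝓝 (∑ N ∈ range s, Oh ζ s * ζ ^ N * (1 + ζ ^ (2 * s - 2 * N)) /
          (P ζ N * P ζ (2 * s - N) * (1 - ζ ^ (2 * N + 1)) * (1 - ζ ^ (4 * s + 1 - 2 * N))))) := by
    refine tendsto_finsetSum _ fun N hN => ?_
    have hN' := mem_range.1 hN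
    have h5 := P_zeta_ne hζ (k := N) (by omega)
    have h6 := P_zeta_ne hζ (k := 2 * s - N) (by omega)
    have h7 := ne_one hζ (not_dvd_odd hN')
    have h8 := ne_one hζ (not_dvd_odd' hN')
    have c1 := cont_P N
    have c2 := cont_P (2 * s - N)
    have c3 := cont_Oh s
    have h4 : ContinuousAt (fun z : ℂ => Oh z s * z ^ N * (1 + z ^ (2 * s - 2 * N)) /
          (P z N * P z (2 * s - N) * (1 - z ^ (2 * N + 1)) * (1 - z ^ (4 * s + 1 - 2 * N)))) ζ := by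
      refine ContinuousAt.div (by fun_prop) (by fun_prop) ?_
      exact mul_ne_zero (mul_ne_zero (mul_ne_zero h5 h6) h7) h8
    exact h4.tendsto.mono_left nhdsWithin_le_nhds
  refine ((h2.mul h1).add h3).congr' ?_
  filter_upwards [ev_good hζ] with z hz
  rw [L_split hz.2, main_L hz.2 hz.1]
  have h5 : (1 - z ^ (2 * s + 1)) ^ 2 ≠ 0 := pow_ne_zero 2 (hz.2 (2 * s))
  have h6 : ∏ i ∈ range s, (1 + (1 - z ^ (2 * s + 1)) ^ 2 *
      -(z ^ (2 * i + 2) / (z ^ (2 * s + 1) * (1 - z ^ (2 * i + 2)) ^ 2))) =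
      ∏ i ∈ range s, (1 - (1 - z ^ (2 * s + 1)) ^ 2 *
        (z ^ (2 * i + 2) / (z ^ (2 * s + 1) * (1 - z ^ (2 * i + 2)) ^ 2))) := by
    refine prod_congr rfl fun i _ => ?_
    ring
  rw [h6]
  generalize ∏ i ∈ range s, (1 - (1 - z ^ (2 * s + 1)) ^ 2 *
        (z ^ (2 * i + 2) / (z ^ (2 * s + 1) * (1 - z ^ (2 * i + 2)) ^ 2))) = X
  generalize ∑ N ∈ range s, Oh z s * z ^ N * (1 + z ^ (2 * s - 2 * N)) /
          (P z N * P z (2 * s - N) * (1 - z ^ (2 * N + 1)) * (1 - z ^ (4 * s + 1 - 2 * N))) = S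
  generalize (1 - z ^ (2 * s + 1)) ^ 2 = x at *
  field_simp
  ring


theorem limit_A (hζ : IsPrimitiveRoot ζ (2 * s + 1)) {j : ℕ} (hj : j ≤ 2 * s) :
    Tendsto (fun z : ℂ => (P z j / Y z (2 * s + 1) j - 1) / (1 - z ^ (2 * s + 1)))
      (𝓝[Metric.ball (0 : ℂ) 1] ζ)
      (𝓝 (∑ i ∈ range j, - (2 * ζ ^ (2 * i + 2) / (1 - ζ ^ (2 * i + 2))))) := by
  have h1 := tendsto_prod_aux (l := 𝓝[Metric.ball (0 : ℂ) 1] ζ)
    (x := fun z : ℂ => 1 - z ^ (2 * s + 1)) (tendsto_x hζ)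
    ((ev_good hζ).mono fun z hz => hz.2 (2 * s)) j
    (fun i z => - ((1 + z ^ (2 * s + 1)) * z ^ (2 * i + 2) /
      (1 - (z ^ (2 * s + 1)) ^ 2 * z ^ (2 * i + 2))))
    (fun i => - (2 * ζ ^ (2 * i + 2) / (1 - ζ ^ (2 * i + 2)))) (by
      intro i hi
      have h2 : 1 - ζ ^ (2 * i + 2) ≠ 0 := ne_one hζ (not_dvd_even (by omega))
      have h3 : ContinuousAt (fun z : ℂ => - ((1 + z ^ (2 * s + 1)) * z ^ (2 * i + 2) /
          (1 - (z ^ (2 * s + 1)) ^ 2 * z ^ (2 * i + 2)))) ζ := by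
        refine ContinuousAt.neg (ContinuousAt.div (by fun_prop) (by fun_prop) ?_)
        rw [hζ.pow_eq_one, one_pow, one_mul]
        exact h2
      have h4 := h3.tendsto
      rw [hζ.pow_eq_one, one_pow, one_mul, one_add_one_eq_two] at h4
      exact h4.mono_left nhdsWithin_le_nhds)
  refine h1.congr' ?_
  filter_upwards [ev_good hζ] with z hz
  congr 2
  unfold P Y
  rw [← prod_div_distrib]
  refine prod_congr rfl fun i _ => ?_
  have h5 : 1 - (z ^ (2 * s + 1)) ^ 2 * z ^ (2 * i + 2) ≠ 0 := by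
    have := hz.2 (4 * s + 2 + 2 * i + 1)
    rwa [show 4 * s + 2 + 2 * i + 1 + 1 = (2 * s + 1) * 2 + (2 * i + 2) by ring, pow_add,
      pow_mul] at this
  generalize z ^ (2 * s + 1) = v at *
  generalize z ^ (2 * i + 2) = w at *
  field_simp
  ring

theorem limit_geom (hζ : IsPrimitiveRoot ζ (2 * s + 1)) (k : ℕ) :
    Tendsto (fun z : ℂ => (1 - (z ^ (2 * s + 1)) ^ k) / (1 - z ^ (2 * s + 1)))
      (𝓝[Metric.ball (0 : ℂ) 1] ζ) (𝓝 (k : ℂ)) := by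
  have h1 : Tendsto (fun z : ℂ => ∑ i ∈ range k, (z ^ (2 * s + 1)) ^ i)
      (𝓝[Metric.ball (0 : ℂ) 1] ζ) (𝓝 (k : ℂ)) := by
    have : Continuous (fun z : ℂ => ∑ i ∈ range k, (z ^ (2 * s + 1)) ^ i) := by fun_prop
    have h2 := this.tendsto ζ
    rw [hζ.pow_eq_one] at h2
    simp only [one_pow, sum_const, card_range, nsmul_eq_mul, mul_one] at h2
    exact h2.mono_left nhdsWithin_le_nhds
  refine h1.congr' ?_
  filter_upwards [ev_good hζ] with z hz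
  have h3 := hz.2 (2 * s)
  rw [eq_div_iff h3, mul_comm, mul_neg_geom_sum]

/-- The limit of the `j`-th pair of the right sum. -/
noncomputable def limPair (ζ : ℂ) (s j : ℕ) : ℂ :=
  (1 + ζ ^ (2 * j + 1)) / (1 - ζ ^ (2 * j + 1)) *
      (∑ i ∈ range j, - (2 * ζ ^ (2 * i + 2) / (1 - ζ ^ (2 * i + 2)))) +
    (1 + ζ ^ (4 * s + 1 - 2 * j)) / (1 - ζ ^ (4 * s + 1 - 2 * j)) *
      (∑ i ∈ range (2 * s - j), - (2 * ζ ^ (2 * i + 2) / (1 - ζ ^ (2 * i + 2)))) +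
    4 / ((1 - ζ ^ (2 * j + 1)) * (1 - ζ ^ (4 * s + 1 - 2 * j))) -
    (1 + ζ ^ (4 * s + 1 - 2 * j)) / (1 - ζ ^ (4 * s + 1 - 2 * j)) * ((4 * (s - j) : ℕ) : ℂ)

theorem limit_pair (hζ : IsPrimitiveRoot ζ (2 * s + 1)) {j : ℕ} (hj : j < s) :
    Tendsto (fun z : ℂ => ((1 + z ^ (2 * j + 1)) / (1 - z ^ (2 * j + 1)) *
              (P z j / Y z (2 * s + 1) j)
            + (z ^ (2 * s + 1)) ^ (4 * (s - j)) * ((1 + z ^ (4 * s + 1 - 2 * j)) / (1 - z ^ (4 * s + 1 - 2 * j))) *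
              (P z (2 * s - j) / Y z (2 * s + 1) (2 * s - j))) / (1 - z ^ (2 * s + 1)))
      (𝓝[Metric.ball (0 : ℂ) 1] ζ) (𝓝 (limPair ζ s j)) := by
  have hA1 := limit_A hζ (j := j) (by omega)
  have hA2 := limit_A hζ (j := 2 * s - j) (by omega)
  have hg := limit_geom hζ (4 * (s - j))
  have h7 := ne_one hζ (not_dvd_odd hj)
  have h8 := ne_one hζ (not_dvd_odd' hj)
  have hF1 : Tendsto (fun z : ℂ => (1 + z ^ (2 * j + 1)) / (1 - z ^ (2 * j + 1)))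
      (𝓝[Metric.ball (0 : ℂ) 1] ζ) (𝓝 ((1 + ζ ^ (2 * j + 1)) / (1 - ζ ^ (2 * j + 1)))) := by
    have : ContinuousAt (fun z : ℂ => (1 + z ^ (2 * j + 1)) / (1 - z ^ (2 * j + 1))) ζ :=
      ContinuousAt.div (by fun_prop) (by fun_prop) h7
    exact this.tendsto.mono_left nhdsWithin_le_nhds
  have hF2 : Tendsto (fun z : ℂ => (1 + z ^ (4 * s + 1 - 2 * j)) / (1 - z ^ (4 * s + 1 - 2 * j)))
      (𝓝[Metric.ball (0 : ℂ) 1] ζ)
      (𝓝 ((1 + ζ ^ (4 * s + 1 - 2 * j)) / (1 - ζ ^ (4 * s + 1 - 2 * j)))) := by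
    have : ContinuousAt (fun z : ℂ => (1 + z ^ (4 * s + 1 - 2 * j)) /
        (1 - z ^ (4 * s + 1 - 2 * j))) ζ :=
      ContinuousAt.div (by fun_prop) (by fun_prop) h8
    exact this.tendsto.mono_left nhdsWithin_le_nhds
  have hv : Tendsto (fun z : ℂ => (z ^ (2 * s + 1)) ^ (4 * (s - j)))
      (𝓝[Metric.ball (0 : ℂ) 1] ζ) (𝓝 1) := by
    have : Continuous (fun z : ℂ => (z ^ (2 * s + 1)) ^ (4 * (s - j))) := by fun_prop
    have h2 := this.tendsto ζ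
    rw [hζ.pow_eq_one, one_pow] at h2
    exact h2.mono_left nhdsWithin_le_nhds
  have hF3 : Tendsto (fun z : ℂ => 2 * (1 + z ^ (2 * s + 1)) / ((1 - z ^ (2 * j + 1)) *
        (1 - z ^ (4 * s + 1 - 2 * j))))
      (𝓝[Metric.ball (0 : ℂ) 1] ζ)
      (𝓝 (4 / ((1 - ζ ^ (2 * j + 1)) * (1 - ζ ^ (4 * s + 1 - 2 * j))))) := by
    have : ContinuousAt (fun z : ℂ => 2 * (1 + z ^ (2 * s + 1)) / ((1 - z ^ (2 * j + 1)) *
        (1 - z ^ (4 * s + 1 - 2 * j)))) ζ :=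
      ContinuousAt.div (by fun_prop) (by fun_prop) (mul_ne_zero h7 h8)
    have h2 := this.tendsto
    rw [hζ.pow_eq_one] at h2
    norm_num at h2
    exact h2.mono_left nhdsWithin_le_nhds
  have h := (((hF1.mul hA1).add ((hv.mul hF2).mul hA2)).add hF3).sub (hF2.mul hg)
  rw [one_mul] at h
  refine h.congr' ?_
  filter_upwards [ev_good hζ] with z hz
  have k1 : 1 - z ^ (2 * j + 1) ≠ 0 := hz.2 _
  have k2 : 1 - z ^ (4 * s + 1 - 2 * j) ≠ 0 := by
    have := hz.2 (4 * s - 2 * j)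
    rwa [show 4 * s - 2 * j + 1 = 4 * s + 1 - 2 * j by omega] at this
  have k3 : 1 - z ^ (2 * s + 1) ≠ 0 := hz.2 _
  have e1 : z ^ (4 * s + 1 - 2 * j) * z ^ (2 * j + 1) = (z ^ (2 * s + 1)) ^ 2 := by
    rw [← pow_mul, ← pow_add]; congr 1; omega
  have e2 : (1 + z ^ (2 * j + 1)) / (1 - z ^ (2 * j + 1)) + (1 + z ^ (4 * s + 1 - 2 * j)) /
      (1 - z ^ (4 * s + 1 - 2 * j)) = (1 - z ^ (2 * s + 1)) * (2 * (1 + z ^ (2 * s + 1)) /
      ((1 - z ^ (2 * j + 1)) * (1 - z ^ (4 * s + 1 - 2 * j)))) := by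
    field_simp
    linear_combination (-2) * e1
  generalize (z ^ (2 * s + 1)) ^ (4 * (s - j)) = V at *
  generalize P z j / Y z (2 * s + 1) j = A at *
  generalize P z (2 * s - j) / Y z (2 * s + 1) (2 * s - j) = B at *
  generalize 2 * (1 + z ^ (2 * s + 1)) /
      ((1 - z ^ (2 * j + 1)) * (1 - z ^ (4 * s + 1 - 2 * j))) = F3 at *
  generalize (1 + z ^ (2 * j + 1)) / (1 - z ^ (2 * j + 1)) = F1 at *
  generalize (1 + z ^ (4 * s + 1 - 2 * j)) / (1 - z ^ (4 * s + 1 - 2 * j)) = F2 at *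
  generalize 1 - z ^ (2 * s + 1) = x at *
  field_simp
  linear_combination -e2

theorem limit_R (hζ : IsPrimitiveRoot ζ (2 * s + 1)) :
    Tendsto (fun z : ℂ => (∑ k ∈ range (2 * s + 1), z ^ (2 * k) * O z k ^ 2 / P z k ^ 2 -
        (-1) ^ s * z ^ (s * (s + 1))) / (1 - z ^ (2 * s + 1)) ^ 2)
      (𝓝[Metric.ball (0 : ℂ) 1] ζ)
      (𝓝 ((-1) ^ s * ζ ^ (s * (s + 1)) * ∑ i ∈ range s, (2 * (ζ ^ (2 * i + 2) / (1 - ζ ^ (2 * i + 2)) ^ 2)) +
        ∑ j ∈ range s, (Oh ζ s ^ 2 / (P ζ (2 * s) * 2 * P ζ j * P ζ (2 * s - j))) *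
          (ζ ^ (2 * (j * (j + 1))) * limPair ζ s j))) := by
  set g : ℕ → ℂ → ℂ := fun i z => z ^ (2 * i + 2) / (z ^ (2 * s + 1) * (1 - z ^ (2 * i + 2)) ^ 2)
    with hg
  set g' : ℕ → ℂ → ℂ := fun i z => z ^ (2 * i + 2) / ((z ^ (2 * s + 1)) ^ 2 * (1 - z ^ (2 * i + 2)) ^ 2)
    with hg'
  have hgt : ∀ i < s, Tendsto (g i) (𝓝[Metric.ball (0 : ℂ) 1] ζ)
      (𝓝 (ζ ^ (2 * i + 2) / (1 - ζ ^ (2 * i + 2)) ^ 2)) := by
    intro i hi
    have h2 : 1 - ζ ^ (2 * i + 2) ≠ 0 := ne_one hζ (not_dvd_even (by omega))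
    have h3 : ContinuousAt (g i) ζ := by
      refine ContinuousAt.div (by fun_prop) (by fun_prop) ?_
      exact mul_ne_zero (pow_ne_zero _ (hζ.ne_zero (by omega))) (pow_ne_zero _ h2)
    have h4 := h3.tendsto
    simp only [hg] at h4
    rw [hζ.pow_eq_one, one_mul] at h4
    exact h4.mono_left nhdsWithin_le_nhds
  have hgt' : ∀ i < s, Tendsto (g' i) (𝓝[Metric.ball (0 : ℂ) 1] ζ)
      (𝓝 (ζ ^ (2 * i + 2) / (1 - ζ ^ (2 * i + 2)) ^ 2)) := by
    intro i hi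
    have h2 : 1 - ζ ^ (2 * i + 2) ≠ 0 := ne_one hζ (not_dvd_even (by omega))
    have h3 : ContinuousAt (g' i) ζ := by
      refine ContinuousAt.div (by fun_prop) (by fun_prop) ?_
      exact mul_ne_zero (pow_ne_zero _ (pow_ne_zero _ (hζ.ne_zero (by omega)))) (pow_ne_zero _ h2)
    have h4 := h3.tendsto
    simp only [hg'] at h4
    rw [hζ.pow_eq_one, one_pow, one_mul] at h4
    exact h4.mono_left nhdsWithin_le_nhds
  have hx := tendsto_x hζ
  have hv : Tendsto (fun z : ℂ => z ^ (2 * s + 1)) (𝓝[Metric.ball (0 : ℂ) 1] ζ) (𝓝 1) := by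
    have : Continuous (fun z : ℂ => z ^ (2 * s + 1)) := by fun_prop
    have h2 := this.tendsto ζ
    rw [hζ.pow_eq_one] at h2
    exact h2.mono_left nhdsWithin_le_nhds
  have hden : ∀ i < s, Tendsto (fun z => 1 - (1 - (z ^ (2 * s + 1)) ^ 2) ^ 2 * g' i z)
      (𝓝[Metric.ball (0 : ℂ) 1] ζ) (𝓝 1) := by
    intro i hi
    have := (tendsto_const_nhds (x := (1 : ℂ))).sub
      ((((tendsto_const_nhds (x := (1 : ℂ))).sub (hv.pow 2)).pow 2).mul (hgt' i hi))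
    simpa using this
  have h1 := tendsto_prod_aux (l := 𝓝[Metric.ball (0 : ℂ) 1] ζ)
    (x := fun z : ℂ => (1 - z ^ (2 * s + 1)) ^ 2) (by simpa using (tendsto_x hζ).pow 2)
    ((ev_good hζ).mono fun z hz => pow_ne_zero 2 (hz.2 (2 * s))) s
    (fun i z => (-2 * g i z + (1 - z ^ (2 * s + 1)) ^ 2 * g i z ^ 2 +
      (1 + z ^ (2 * s + 1)) ^ 2 * g' i z) / (1 - (1 - (z ^ (2 * s + 1)) ^ 2) ^ 2 * g' i z))
    (fun i => 2 * (ζ ^ (2 * i + 2) / (1 - ζ ^ (2 * i + 2)) ^ 2)) (by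
      intro i hi
      have h3 : Tendsto (fun z => (-2 * g i z + (1 - z ^ (2 * s + 1)) ^ 2 * g i z ^ 2 +
          (1 + z ^ (2 * s + 1)) ^ 2 * g' i z) / (1 - (1 - (z ^ (2 * s + 1)) ^ 2) ^ 2 * g' i z))
          (𝓝[Metric.ball (0 : ℂ) 1] ζ) (𝓝 ((-2 * (ζ ^ (2 * i + 2) / (1 - ζ ^ (2 * i + 2)) ^ 2) +
            0 ^ 2 * (ζ ^ (2 * i + 2) / (1 - ζ ^ (2 * i + 2)) ^ 2) ^ 2 +
            (1 + 1) ^ 2 * (ζ ^ (2 * i + 2) / (1 - ζ ^ (2 * i + 2)) ^ 2)) / 1)) :=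
        ((((tendsto_const_nhds (x := (-2 : ℂ))).mul (hgt i hi)).add
        ((hx.pow 2).mul ((hgt i hi).pow 2))).add
        ((((tendsto_const_nhds (x := (1 : ℂ))).add hv).pow 2).mul (hgt' i hi))).div
        (hden i hi) one_ne_zero
      have e : ((-2 * (ζ ^ (2 * i + 2) / (1 - ζ ^ (2 * i + 2)) ^ 2) +
            0 ^ 2 * (ζ ^ (2 * i + 2) / (1 - ζ ^ (2 * i + 2)) ^ 2) ^ 2 +
            (1 + 1) ^ 2 * (ζ ^ (2 * i + 2) / (1 - ζ ^ (2 * i + 2)) ^ 2)) / 1) =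
            2 * (ζ ^ (2 * i + 2) / (1 - ζ ^ (2 * i + 2)) ^ 2) := by ring
      rw [e] at h3
      exact h3)
  have h2 : Tendsto (fun z : ℂ => (-1) ^ s * z ^ (s * (s + 1))) (𝓝[Metric.ball (0 : ℂ) 1] ζ)
      (𝓝 ((-1) ^ s * ζ ^ (s * (s + 1)))) := by
    have : Continuous (fun z : ℂ => (-1) ^ s * z ^ (s * (s + 1))) := by fun_prop
    exact (this.tendsto ζ).mono_left nhdsWithin_le_nhds
  have h3 : Tendsto (fun z : ℂ => ∑ j ∈ range s, (Oh z s ^ 2 / (P z (2 * s) * (1 + z ^ (2 * s + 1)) * P z j * P z (2 * s - j))) *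
          (z ^ (2 * (j * (j + 1))) * ((1 + z ^ (2 * j + 1)) / (1 - z ^ (2 * j + 1)) *
              (P z j / Y z (2 * s + 1) j)
            + (z ^ (2 * s + 1)) ^ (4 * (s - j)) * ((1 + z ^ (4 * s + 1 - 2 * j)) / (1 - z ^ (4 * s + 1 - 2 * j))) *
              (P z (2 * s - j) / Y z (2 * s + 1) (2 * s - j))) / (1 - z ^ (2 * s + 1))))
      (𝓝[Metric.ball (0 : ℂ) 1] ζ)
      (𝓝 (∑ j ∈ range s, (Oh ζ s ^ 2 / (P ζ (2 * s) * 2 * P ζ j * P ζ (2 * s - j))) *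
          (ζ ^ (2 * (j * (j + 1))) * limPair ζ s j))) := by
    refine tendsto_finsetSum _ fun j hj => ?_
    have hj' := mem_range.1 hj
    have h5 := P_zeta_ne hζ (k := j) (by omega)
    have h6 := P_zeta_ne hζ (k := 2 * s - j) (by omega)
    have h6' := P_zeta_ne hζ (k := 2 * s) (by omega)
    have c1 := cont_P j
    have c2 := cont_P (2 * s - j)
    have c3 := cont_Oh s
    have c4 := cont_P (2 * s)
    have h4 : ContinuousAt (fun z : ℂ => Oh z s ^ 2 /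
        (P z (2 * s) * (1 + z ^ (2 * s + 1)) * P z j * P z (2 * s - j))) ζ := by
      refine ContinuousAt.div (by fun_prop) (by fun_prop) ?_
      rw [hζ.pow_eq_one]
      exact mul_ne_zero (mul_ne_zero (mul_ne_zero h6' (by norm_num)) h5) h6
    have h4' := h4.tendsto
    rw [hζ.pow_eq_one, one_add_one_eq_two] at h4'
    have h5 : Tendsto (fun z : ℂ => z ^ (2 * (j * (j + 1)))) (𝓝[Metric.ball (0 : ℂ) 1] ζ)
        (𝓝 (ζ ^ (2 * (j * (j + 1))))) := by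
      have : Continuous (fun z : ℂ => z ^ (2 * (j * (j + 1)))) := by fun_prop
      exact (this.tendsto ζ).mono_left nhdsWithin_le_nhds
    refine ((h4'.mono_left nhdsWithin_le_nhds).mul (h5.mul (limit_pair hζ hj'))).congr ?_
    intro z
    rw [mul_div_assoc]
  refine ((h2.mul h1).add h3).congr' ?_
  have hden' : ∀ᶠ z in 𝓝[Metric.ball (0 : ℂ) 1] ζ, ∀ i < s,
      1 - (1 - (z ^ (2 * s + 1)) ^ 2) ^ 2 * g' i z ≠ 0 := by
    have := (Filter.eventually_all_finset (range s)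
      (l := 𝓝[Metric.ball (0 : ℂ) 1] ζ)
      (p := fun i z => 1 - (1 - (z ^ (2 * s + 1)) ^ 2) ^ 2 * g' i z ≠ 0)).2
      fun i hi => (hden i (mem_range.1 hi)).eventually_ne one_ne_zero
    exact this.mono fun z hz i hi => hz i (mem_range.2 hi)
  filter_upwards [ev_good hζ, hden'] with z hz hz'
  rw [R_split hz.2, main_R hz.2 hz.1]
  have h5 : (1 - z ^ (2 * s + 1)) ^ 2 ≠ 0 := pow_ne_zero 2 (hz.2 (2 * s))
  have h6 : ∏ i ∈ range s, (1 + (1 - z ^ (2 * s + 1)) ^ 2 *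
      ((-2 * g i z + (1 - z ^ (2 * s + 1)) ^ 2 * g i z ^ 2 +
      (1 + z ^ (2 * s + 1)) ^ 2 * g' i z) / (1 - (1 - (z ^ (2 * s + 1)) ^ 2) ^ 2 * g' i z))) =
      ∏ i ∈ range s, ((1 - (1 - z ^ (2 * s + 1)) ^ 2 *
        (z ^ (2 * i + 2) / (z ^ (2 * s + 1) * (1 - z ^ (2 * i + 2)) ^ 2))) ^ 2 /
        (1 - (1 - (z ^ (2 * s + 1)) ^ 2) ^ 2 *
        (z ^ (2 * i + 2) / ((z ^ (2 * s + 1)) ^ 2 * (1 - z ^ (2 * i + 2)) ^ 2)))) := by
    refine prod_congr rfl fun i hi => ?_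
    have h7 := hz' i (mem_range.1 hi)
    show _ = (1 - (1 - z ^ (2 * s + 1)) ^ 2 * g i z) ^ 2 / (1 - (1 - (z ^ (2 * s + 1)) ^ 2) ^ 2 * g' i z)
    refine aux_frac h7 ?_
    ring
  rw [h6]
  generalize ∏ i ∈ range s, ((1 - (1 - z ^ (2 * s + 1)) ^ 2 *
        (z ^ (2 * i + 2) / (z ^ (2 * s + 1) * (1 - z ^ (2 * i + 2)) ^ 2))) ^ 2 /
        (1 - (1 - (z ^ (2 * s + 1)) ^ 2) ^ 2 *
        (z ^ (2 * i + 2) / ((z ^ (2 * s + 1)) ^ 2 * (1 - z ^ (2 * i + 2)) ^ 2)))) = X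
  generalize ∑ j ∈ range s, (Oh z s ^ 2 / (P z (2 * s) * (1 + z ^ (2 * s + 1)) * P z j * P z (2 * s - j))) *
          (z ^ (2 * (j * (j + 1))) * ((1 + z ^ (2 * j + 1)) / (1 - z ^ (2 * j + 1)) *
              (P z j / Y z (2 * s + 1) j)
            + (z ^ (2 * s + 1)) ^ (4 * (s - j)) * ((1 + z ^ (4 * s + 1 - 2 * j)) / (1 - z ^ (4 * s + 1 - 2 * j))) *
              (P z (2 * s - j) / Y z (2 * s + 1) (2 * s - j))) / (1 - z ^ (2 * s + 1))) = S
  generalize (1 - z ^ (2 * s + 1)) ^ 2 = x at *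
  field_simp
  ring


/-- theta terms -/
noncomputable def th (ζ : ℂ) (d : ℕ) : ℂ := (-1) ^ d * (ζ ^ (d ^ 2))⁻¹

theorem z0 (hζ : IsPrimitiveRoot ζ (2 * s + 1)) : ζ ≠ 0 := hζ.ne_zero (by omega)

theorem pow_congr_mod (hζ : IsPrimitiveRoot ζ (2 * s + 1)) {a b c d : ℕ}
    (h : a + (2 * s + 1) * c = b + (2 * s + 1) * d) : ζ ^ a = ζ ^ b := by
  have h1 : ζ ^ (a + (2 * s + 1) * c) = ζ ^ (b + (2 * s + 1) * d) := by rw [h]
  rw [pow_add, pow_add, pow_mul, pow_mul, hζ.pow_eq_one, one_pow, one_pow, mul_one, mul_one] at h1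
  exact h1

theorem th_refl (hζ : IsPrimitiveRoot ζ (2 * s + 1)) {a b : ℕ} (h : a + b = 2 * s + 1) :
    th ζ a = - th ζ b := by
  unfold th
  have h1 : ζ ^ (a ^ 2) = ζ ^ (b ^ 2) := by
    refine pow_congr_mod hζ (c := 2 * b) (d := 2 * s + 1) ?_
    rw [← h]; ring
  have h2 : (-1 : ℂ) ^ a = - (-1) ^ b := by
    have h3 : (-1 : ℂ) ^ a * (-1) ^ b = -1 := by
      rw [← pow_add, h, pow_succ, pow_mul]; simp
    have h4 : (-1 : ℂ) ^ b * (-1) ^ b = 1 := by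
      rw [← mul_pow]; simp
    calc (-1 : ℂ) ^ a = (-1) ^ a * ((-1) ^ b * (-1) ^ b) := by rw [h4, mul_one]
      _ = _ := by rw [← mul_assoc, h3]; ring
  rw [h1, h2]; ring

theorem Gam (hζ : IsPrimitiveRoot ζ (2 * s + 1)) {k : ℕ} (hk : k ≤ s) :
    ∑ i ∈ range (s + k), th ζ (i + 1) = ∑ i ∈ range (s - k), th ζ (i + 1) := by
  induction k with
  | zero => simp
  | succ k ih =>
    have h1 := ih (by omega)
    rw [← add_assoc, sum_range_succ, h1, show s - k = (s - (k + 1)) + 1 by omega, sum_range_succ,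
      th_refl hζ (a := s + k + 1) (b := s - (k + 1) + 1) (by omega)]
    ring

theorem Gam' (hζ : IsPrimitiveRoot ζ (2 * s + 1)) {l : ℕ} (hl : l ≤ 2 * s) :
    ∑ i ∈ range (2 * s - l), th ζ (i + 1) = ∑ i ∈ range l, th ζ (i + 1) := by
  rcases le_total l s with h | h
  · have := Gam hζ (k := s - l) (by omega)
    rwa [show s + (s - l) = 2 * s - l by omega, show s - (s - l) = l by omega] at this
  · have := Gam hζ (k := l - s) (by omega)
    rw [show s + (l - s) = l by omega, show s - (l - s) = 2 * s - l by omega] at this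
    exact this.symm

/-- For each `l`, the signed sum over `N ≠ l` vanishes. -/
theorem E_zero (hζ : IsPrimitiveRoot ζ (2 * s + 1)) {l : ℕ} (hl : l ≤ 2 * s) :
    ∑ N ∈ Ico (l + 1) (2 * s + 1), th ζ N * (ζ ^ (2 * N + 1)) ^ l
      = ∑ N ∈ range l, th ζ N * (ζ ^ (2 * N + 1)) ^ l := by
  have z0 := z0 hζ
  have e1 : ∑ N ∈ Ico (l + 1) (2 * s + 1), th ζ N * (ζ ^ (2 * N + 1)) ^ l =
      (-1) ^ l * ζ ^ (l ^ 2 + l) * ∑ i ∈ range (2 * s - l), th ζ (i + 1) := by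
    rw [sum_Ico_eq_sum_range, mul_sum, show 2 * s + 1 - (l + 1) = 2 * s - l by omega]
    refine sum_congr rfl fun i _ => ?_
    unfold th
    rw [show (l + 1 + i) ^ 2 = l ^ 2 + (i + 1) ^ 2 + 2 * l * (i + 1) by ring,
      show l + 1 + i = l + (i + 1) by ring, pow_add (-1 : ℂ) l, ← pow_mul,
      show (2 * (l + (i + 1)) + 1) * l = (l ^ 2 + l) + l ^ 2 + 2 * l * (i + 1) by ring,
      pow_add ζ (l ^ 2 + (i + 1) ^ 2), pow_add ζ (l ^ 2) ((i + 1) ^ 2), pow_add ζ (l ^ 2 + l + l ^ 2),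
      pow_add ζ (l ^ 2 + l)]
    field_simp
  have e2 : ∑ N ∈ range l, th ζ N * (ζ ^ (2 * N + 1)) ^ l =
      (-1) ^ l * ζ ^ (l ^ 2 + l) * ∑ i ∈ range l, th ζ (i + 1) := by
    rw [← sum_range_reflect, mul_sum]
    refine sum_congr rfl fun i hi => ?_
    have hi' := mem_range.1 hi
    obtain ⟨d, hd⟩ : ∃ d, l = d + (i + 1) := ⟨l - (i + 1), by omega⟩
    unfold th
    rw [show l - 1 - i = d by omega, hd]
    have h4 : (-1 : ℂ) ^ (i + 1) * (-1) ^ (i + 1) = 1 := by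
      rw [← mul_pow]; simp
    rw [pow_add (-1 : ℂ) d, ← pow_mul]
    have e3 : ζ ^ ((2 * d + 1) * (d + (i + 1))) * ζ ^ ((i + 1) ^ 2) =
        ζ ^ ((d + (i + 1)) ^ 2 + (d + (i + 1))) * ζ ^ (d ^ 2) := by
      rw [← pow_add, ← pow_add]; congr 1; ring
    have e4 : (ζ ^ d ^ 2)⁻¹ * ζ ^ ((2 * d + 1) * (d + (i + 1))) =
        ζ ^ ((d + (i + 1)) ^ 2 + (d + (i + 1))) * (ζ ^ (i + 1) ^ 2)⁻¹ := by
      field_simp
      rw [mul_comm] at e3
      rw [mul_comm (ζ ^ (d ^ 2))]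
      linear_combination e3
    calc (-1) ^ d * (ζ ^ d ^ 2)⁻¹ * ζ ^ ((2 * d + 1) * (d + (i + 1)))
        = (-1) ^ d * ((ζ ^ d ^ 2)⁻¹ * ζ ^ ((2 * d + 1) * (d + (i + 1)))) := by ring
      _ = (-1) ^ d * 1 * (ζ ^ ((d + (i + 1)) ^ 2 + (d + (i + 1))) * (ζ ^ (i + 1) ^ 2)⁻¹) := by
        rw [e4, mul_one]
      _ = _ := by
        linear_combination (-(-1) ^ d * (ζ ^ ((d + (i + 1)) ^ 2 + (d + (i + 1))) *
          (ζ ^ (i + 1) ^ 2)⁻¹)) * h4
  rw [e1, e2, Gam' hζ hl]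

/-- The swapped double sum. -/
theorem tau_sum (hζ : IsPrimitiveRoot ζ (2 * s + 1)) :
    ∑ N ∈ range (2 * s + 1), th ζ N *
      (∑ l ∈ range N, ((l : ℂ) - s) * (ζ ^ (2 * N + 1)) ^ l -
        ∑ l ∈ Ico (N + 1) (2 * s + 1), ((l : ℂ) - s) * (ζ ^ (2 * N + 1)) ^ l) = 0 := by
  have h1 : ∑ N ∈ range (2 * s + 1), th ζ N *
      (∑ l ∈ range N, ((l : ℂ) - s) * (ζ ^ (2 * N + 1)) ^ l -
        ∑ l ∈ Ico (N + 1) (2 * s + 1), ((l : ℂ) - s) * (ζ ^ (2 * N + 1)) ^ l) =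
      ∑ N ∈ range (2 * s + 1), ∑ l ∈ range N, th ζ N * (((l : ℂ) - s) * (ζ ^ (2 * N + 1)) ^ l) -
      ∑ N ∈ range (2 * s + 1), ∑ l ∈ Ico (N + 1) (2 * s + 1),
        th ζ N * (((l : ℂ) - s) * (ζ ^ (2 * N + 1)) ^ l) := by
    rw [← sum_sub_distrib]
    refine sum_congr rfl fun N _ => ?_
    rw [mul_sub, mul_sum, mul_sum]
  have c1 : ∑ N ∈ range (2 * s + 1), ∑ l ∈ range N,
      th ζ N * (((l : ℂ) - s) * (ζ ^ (2 * N + 1)) ^ l) =
      ∑ l ∈ range (2 * s + 1), ∑ N ∈ Ico (l + 1) (2 * s + 1),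
      th ζ N * (((l : ℂ) - s) * (ζ ^ (2 * N + 1)) ^ l) :=
    sum_comm' (by
        intro x y
        simp only [mem_range, mem_Ico]
        omega)
  have c2 : ∑ N ∈ range (2 * s + 1), ∑ l ∈ Ico (N + 1) (2 * s + 1),
      th ζ N * (((l : ℂ) - s) * (ζ ^ (2 * N + 1)) ^ l) =
      ∑ l ∈ range (2 * s + 1), ∑ N ∈ range l,
      th ζ N * (((l : ℂ) - s) * (ζ ^ (2 * N + 1)) ^ l) :=
    sum_comm' (by
        intro x y
        simp only [mem_range, mem_Ico]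
        omega)
  rw [h1, c1, c2, ← sum_sub_distrib]
  refine sum_eq_zero fun l hl => ?_
  have hl' := mem_range.1 hl
  have h2 := E_zero hζ (l := l) (by omega)
  have h3 : ∀ S : Finset ℕ, ∑ N ∈ S, th ζ N * (((l : ℂ) - s) * (ζ ^ (2 * N + 1)) ^ l) =
      ((l : ℂ) - s) * ∑ N ∈ S, th ζ N * (ζ ^ (2 * N + 1)) ^ l := by
    intro S
    rw [mul_sum]
    refine sum_congr rfl fun N _ => ?_
    ring
  rw [h3, h3, h2, sub_self]

theorem S1_closed (z a : ℂ) (hz : 1 - z ≠ 0) (N : ℕ) :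
    ∑ l ∈ range N, ((l : ℂ) - a) * z ^ l =
      (z * (1 - z ^ N) - N * z ^ N * (1 - z) - a * (1 - z ^ N) * (1 - z)) / (1 - z) ^ 2 := by
  induction N with
  | zero => simp
  | succ N ih =>
    rw [sum_range_succ, ih]
    push_cast
    field_simp
    ring

/-- closed form of the inner sum -/
noncomputable def Acl (s N : ℕ) (z : ℂ) : ℂ :=
  (1 + z) / (1 - z) ^ 2 + z ^ N * (((s : ℂ) - N) * ((1 + z) / (1 - z)) - 2 * (z / (1 - z) ^ 2))

theorem A_closed (z : ℂ) (hz : 1 - z ≠ 0) (hz1 : z ^ (2 * s + 1) = 1) {N : ℕ} (hN : N ≤ 2 * s) :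
    ∑ l ∈ range N, ((l : ℂ) - s) * z ^ l -
        ∑ l ∈ Ico (N + 1) (2 * s + 1), ((l : ℂ) - s) * z ^ l = Acl s N z := by
  rw [sum_Ico_eq_sub _ (by omega), S1_closed z s hz, S1_closed z s hz, S1_closed z s hz, hz1]
  unfold Acl
  push_cast
  field_simp
  ring

theorem A_one (s : ℕ) :
    ∑ l ∈ range s, ((l : ℂ) - s) * (1 : ℂ) ^ l -
        ∑ l ∈ Ico (s + 1) (2 * s + 1), ((l : ℂ) - s) * (1 : ℂ) ^ l = - (s * (s + 1)) := by
  have h1 : ∀ m : ℕ, ∑ l ∈ range m, ((l : ℂ) - s) * (1 : ℂ) ^ l = m * (m - 1) / 2 - s * m := by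
    intro m
    induction m with
    | zero => simp
    | succ m ih =>
      rw [sum_range_succ, ih]
      push_cast
      ring
  rw [sum_Ico_eq_sub _ (by omega), h1, h1, h1]
  push_cast
  ring

theorem tau_symm (hζ : IsPrimitiveRoot ζ (2 * s + 1)) {N : ℕ} (hN : N < s) :
    th ζ (2 * s - N) * Acl s (2 * s - N) (ζ ^ (2 * (2 * s - N) + 1)) =
      th ζ N * Acl s N (ζ ^ (2 * N + 1)) := by
  have z0 := z0 hζ
  obtain ⟨M, hM⟩ : ∃ M, M = 2 * s - N := ⟨_, rfl⟩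
  rw [← hM]
  have h1 : ζ ^ (2 * M + 1) * ζ ^ (2 * N + 1) = 1 := by
    rw [← pow_add, show 2 * M + 1 + (2 * N + 1) = (2 * s + 1) * 2 by omega, pow_mul,
      hζ.pow_eq_one, one_pow]
  have h2 : ζ ^ (M ^ 2) = ζ ^ (N ^ 2) * ζ ^ (2 * N + 1) := by
    rw [← pow_add]
    refine pow_congr_mod hζ (c := 2 * (N + 1)) (d := 2 * s + 1) ?_
    have : 2 * s + 1 = M + (N + 1) := by omega
    rw [this]; ring
  have h3 : (ζ ^ (2 * M + 1)) ^ M = (ζ ^ (2 * N + 1)) ^ N * ζ ^ (2 * N + 1) := by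
    have h4 : (ζ ^ (2 * M + 1)) ^ (M + (N + 1)) = 1 := by
      rw [show M + (N + 1) = 2 * s + 1 by omega, ← pow_mul, mul_comm, pow_mul, hζ.pow_eq_one,
        one_pow]
    have h5 : (ζ ^ (2 * M + 1)) ^ (N + 1) * (ζ ^ (2 * N + 1)) ^ (N + 1) = 1 := by
      rw [← mul_pow, h1, one_pow]
    calc (ζ ^ (2 * M + 1)) ^ M = (ζ ^ (2 * M + 1)) ^ M *
          ((ζ ^ (2 * M + 1)) ^ (N + 1) * (ζ ^ (2 * N + 1)) ^ (N + 1)) := by rw [h5, mul_one]
      _ = (ζ ^ (2 * M + 1)) ^ (M + (N + 1)) * (ζ ^ (2 * N + 1)) ^ (N + 1) := by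
        rw [← mul_assoc, ← pow_add]
      _ = _ := by rw [h4, one_mul, pow_succ]
  have h4 : (-1 : ℂ) ^ M = (-1) ^ N := by
    have h5 : (-1 : ℂ) ^ (M + N) = 1 := by
      rw [show M + N = 2 * s by omega, pow_mul]; simp
    have h6 : (-1 : ℂ) ^ N * (-1) ^ N = 1 := by
      rw [← mul_pow]; simp
    calc (-1 : ℂ) ^ M = (-1) ^ M * ((-1) ^ N * (-1) ^ N) := by rw [h6, mul_one]
      _ = (-1) ^ (M + N) * (-1) ^ N := by rw [pow_add]; ring
      _ = _ := by rw [h5, one_mul]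
  have h5 : (M : ℂ) = 2 * s - N := by
    have : M + N = 2 * s := by omega
    have h6 : ((M + N : ℕ) : ℂ) = ((2 * s : ℕ) : ℂ) := by rw [this]
    push_cast at h6
    linear_combination h6
  have hz : 1 - ζ ^ (2 * N + 1) ≠ 0 := by
    intro h
    have := hζ.dvd_of_pow_eq_one _ (sub_eq_zero.1 h).symm
    have := Nat.le_of_dvd (by omega) this
    omega
  unfold th Acl
  rw [h2, h3, h4, h5]
  have h6 : ζ ^ (2 * M + 1) = (ζ ^ (2 * N + 1))⁻¹ := eq_inv_of_mul_eq_one_left h1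
  rw [h6]
  have hy0 : ζ ^ (2 * N + 1) ≠ 0 := pow_ne_zero _ z0
  have hN0 : ζ ^ (N ^ 2) ≠ 0 := pow_ne_zero _ z0
  generalize ζ ^ (2 * N + 1) = y at *
  generalize ζ ^ (N ^ 2) = x at *
  have hz' : y - 1 ≠ 0 := by
    intro h
    apply hz
    linear_combination -h
  have e1 : 1 - y⁻¹ = (y - 1) / y := by field_simp
  have e2 : 1 - y = - (y - 1) := by ring
  rw [e1, e2]
  field_simp
  ring

/-- The main root-of-unity identity. -/
theorem identity_I (hζ : IsPrimitiveRoot ζ (2 * s + 1)) :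
    ∑ N ∈ range s, th ζ N * Acl s N (ζ ^ (2 * N + 1)) =
      (-1) ^ s * ζ ^ (s * (s + 1)) * (s * (s + 1)) / 2 := by
  have h := tau_sum hζ
  have h1 : ∀ N ∈ range (2 * s + 1), th ζ N *
      (∑ l ∈ range N, ((l : ℂ) - s) * (ζ ^ (2 * N + 1)) ^ l -
        ∑ l ∈ Ico (N + 1) (2 * s + 1), ((l : ℂ) - s) * (ζ ^ (2 * N + 1)) ^ l) =
      if N = s then - (th ζ s * (s * (s + 1))) else th ζ N * Acl s N (ζ ^ (2 * N + 1)) := by
    intro N hN
    have hN' := mem_range.1 hN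
    split_ifs with h2
    · subst h2
      rw [hζ.pow_eq_one, A_one]
      ring
    · congr 1
      refine A_closed _ ?_ ?_ (by omega)
      · intro h3
        have h4 := hζ.dvd_of_pow_eq_one _ (sub_eq_zero.1 h3).symm
        obtain ⟨c, hc⟩ := h4
        have h5 : c < 2 := by
          by_contra hc2
          have : (2 * s + 1) * 2 ≤ (2 * s + 1) * c := Nat.mul_le_mul_left _ (by omega)
          omega
        interval_cases c <;> omega
      · rw [← pow_mul, mul_comm, pow_mul, hζ.pow_eq_one, one_pow]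
  rw [sum_congr rfl h1, show 2 * s + 1 = s + 1 + s by ring, sum_range_add, sum_range_succ] at h
  rw [if_pos rfl] at h
  have h2 : ∑ x ∈ range s, (if x = s then - (th ζ s * (s * (s + 1))) else
      th ζ x * Acl s x (ζ ^ (2 * x + 1))) = ∑ N ∈ range s, th ζ N * Acl s N (ζ ^ (2 * N + 1)) := by
    refine sum_congr rfl fun N hN => ?_
    rw [if_neg (by have := mem_range.1 hN; omega)]
  have h3 : ∑ x ∈ range s, (if s + 1 + x = s then - (th ζ s * (s * (s + 1))) else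
      th ζ (s + 1 + x) * Acl s (s + 1 + x) (ζ ^ (2 * (s + 1 + x) + 1))) =
      ∑ N ∈ range s, th ζ N * Acl s N (ζ ^ (2 * N + 1)) := by
    rw [← sum_range_reflect]
    refine sum_congr rfl fun N hN => ?_
    have hN' := mem_range.1 hN
    rw [if_neg (by omega), show s + 1 + (s - 1 - N) = 2 * s - N by omega]
    exact tau_symm hζ hN'
  rw [h2, h3] at h
  have h4 : th ζ s = (-1) ^ s * ζ ^ (s * (s + 1)) := by
    unfold th
    congr 1
    rw [inv_eq_iff_eq_inv]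
    refine eq_inv_of_mul_eq_one_left ?_
    rw [← pow_add, show s ^ 2 + s * (s + 1) = (2 * s + 1) * s by ring, pow_mul, hζ.pow_eq_one,
      one_pow]
  rw [h4] at h
  linear_combination (1 / 2) * h


theorem P_mul (hζ : IsPrimitiveRoot ζ (2 * s + 1)) {j : ℕ} (hj : j ≤ 2 * s) :
    P ζ j * P ζ (2 * s - j) = (2 * s + 1) * (-1) ^ j * ζ ^ (j * (j + 1)) := by
  induction j with
  | zero =>
    have h1 : IsPrimitiveRoot (ζ ^ 2) (2 * s + 1) :=
      hζ.pow_of_coprime 2 (by rw [Nat.coprime_two_left]; exact ⟨s, rfl⟩)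
    have h2 := h1.prod_one_sub_pow_eq_order
    have h3 : P ζ (2 * s) = ∏ k ∈ range (2 * s), (1 - (ζ ^ 2) ^ (k + 1)) := by
      unfold P
      refine prod_congr rfl fun i _ => ?_
      rw [← pow_mul]
      congr 2
    rw [P_zero, Nat.sub_zero, one_mul, h3, h2]
    push_cast
    ring
  | succ j ih =>
    have ih' := ih (by omega)
    have e1 : P ζ (2 * s - j) = P ζ (2 * s - (j + 1)) * (1 - ζ ^ (4 * s - 2 * j)) := by
      rw [show 2 * s - j = (2 * s - (j + 1)) + 1 by omega, P_succ]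
      congr 3
      omega
    have e2 : ζ ^ (4 * s - 2 * j) * ζ ^ (2 * j + 2) = 1 := by
      rw [← pow_add, show 4 * s - 2 * j + (2 * j + 2) = (2 * s + 1) * 2 by omega, pow_mul,
        hζ.pow_eq_one, one_pow]
    have e3 : 1 - ζ ^ (2 * j + 2) ≠ 0 := ne_one hζ (not_dvd_even (by omega))
    have e4 : ζ ^ (2 * j + 2) ≠ 0 := pow_ne_zero _ (z0 hζ)
    have e5 : ζ ^ (4 * s - 2 * j) = (ζ ^ (2 * j + 2))⁻¹ := eq_inv_of_mul_eq_one_left e2
    have e6 : ζ ^ ((j + 1) * (j + 1 + 1)) = ζ ^ (j * (j + 1)) * ζ ^ (2 * j + 2) := by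
      rw [← pow_add]; congr 1; ring
    rw [P_succ, e6, pow_succ (-1 : ℂ) j]
    rw [e1, e5] at ih'
    generalize ζ ^ (2 * j + 2) = w at *
    generalize ζ ^ (j * (j + 1)) = x at *
    have e7 : 1 - w⁻¹ = - (w⁻¹ * (1 - w)) := by field_simp; ring
    rw [e7] at ih'
    have e8 : P ζ j * (1 - w) * P ζ (2 * s - (j + 1)) =
        - w * (P ζ j * (P ζ (2 * s - (j + 1)) * -(w⁻¹ * (1 - w)))) := by
      field_simp
    rw [e8, ih']
    ring

theorem Oh_zeta (hζ : IsPrimitiveRoot ζ (2 * s + 1)) : Oh ζ s = 2 * s + 1 := by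
  have h1 : Oh ζ s = P ζ (2 * s) := by
    rw [P_two ζ (z0 hζ)]
    unfold Oh
    rw [O_reflect ζ (z0 hζ), hζ.pow_eq_one]
    unfold P
    rw [mul_comm]
    simp
  have h2 := P_mul hζ (j := 0) (by omega)
  rw [h1]
  simpa using h2

theorem P_zeta_two (hζ : IsPrimitiveRoot ζ (2 * s + 1)) : P ζ (2 * s) = 2 * s + 1 := by
  have h2 := P_mul hζ (j := 0) (by omega)
  simpa using h2

theorem h_diff (hζ : IsPrimitiveRoot ζ (2 * s + 1)) {k : ℕ} (hk : k ≤ s) :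
    (∑ i ∈ range (s - k), - (2 * ζ ^ (2 * i + 2) / (1 - ζ ^ (2 * i + 2)))) -
      (∑ i ∈ range (s + k), - (2 * ζ ^ (2 * i + 2) / (1 - ζ ^ (2 * i + 2)))) = - (2 * (k : ℂ)) := by
  induction k with
  | zero => simp
  | succ k ih =>
    have ih' := ih (by omega)
    rw [show s - k = (s - (k + 1)) + 1 by omega, sum_range_succ] at ih'
    rw [← add_assoc, sum_range_succ (n := s + k)]
    have e1 : ζ ^ (2 * (s - (k + 1)) + 2) * ζ ^ (2 * (s + k) + 2) = 1 := by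
      rw [← pow_add, show 2 * (s - (k + 1)) + 2 + (2 * (s + k) + 2) = (2 * s + 1) * 2 by omega,
        pow_mul, hζ.pow_eq_one, one_pow]
    have e3 : 1 - ζ ^ (2 * (s - (k + 1)) + 2) ≠ 0 := ne_one hζ (not_dvd_even (by omega))
    have e4 : ζ ^ (2 * (s - (k + 1)) + 2) ≠ 0 := pow_ne_zero _ (z0 hζ)
    have e5 : ζ ^ (2 * (s + k) + 2) = (ζ ^ (2 * (s - (k + 1)) + 2))⁻¹ :=
      eq_inv_of_mul_eq_one_right e1
    rw [e5]
    have e6 : 2 * (ζ ^ (2 * (s - (k + 1)) + 2))⁻¹ / (1 - (ζ ^ (2 * (s - (k + 1)) + 2))⁻¹) =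
        - 2 - 2 * ζ ^ (2 * (s - (k + 1)) + 2) / (1 - ζ ^ (2 * (s - (k + 1)) + 2)) := by
      generalize ζ ^ (2 * (s - (k + 1)) + 2) = w at *
      have e7 : 1 - w⁻¹ = - (w⁻¹ * (1 - w)) := by field_simp; ring
      rw [e7]
      field_simp
      ring
    rw [e6]
    push_cast
    linear_combination ih'

theorem h_diff' (hζ : IsPrimitiveRoot ζ (2 * s + 1)) {j : ℕ} (hj : j ≤ s) :
    (∑ i ∈ range j, - (2 * ζ ^ (2 * i + 2) / (1 - ζ ^ (2 * i + 2)))) -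
      (∑ i ∈ range (2 * s - j), - (2 * ζ ^ (2 * i + 2) / (1 - ζ ^ (2 * i + 2)))) =
      - (2 * ((s : ℂ) - j)) := by
  have h := h_diff hζ (k := s - j) (by omega)
  rw [show s - (s - j) = j by omega, show s + (s - j) = 2 * s - j by omega] at h
  rw [h]
  push_cast [Nat.cast_sub hj]
  ring

theorem sq_sum (w : ℂ) (hw : 1 - w ≠ 0) (n : ℂ) (m : ℕ) :
    ∑ k ∈ range m, ((k : ℂ) * (n - k)) * w ^ k =
      n * (w - m * w ^ m + (m - 1) * w ^ (m + 1)) / (1 - w) ^ 2 -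
      (w * (1 + w) - w ^ m * ((m : ℂ) ^ 2 - (2 * (m : ℂ) ^ 2 - 2 * m - 1) * w +
        ((m : ℂ) - 1) ^ 2 * w ^ 2)) / (1 - w) ^ 3 := by
  induction m with
  | zero =>
    rw [range_zero, sum_empty, Nat.cast_zero, pow_zero, zero_add, pow_one]
    field_simp
    ring
  | succ m ih =>
    rw [sum_range_succ, ih]
    push_cast
    field_simp
    ring

theorem sq_sum_root (w : ℂ) (hw : 1 - w ≠ 0) (hw1 : w ^ (2 * s + 1) = 1) :
    ∑ k ∈ range (2 * s + 1), ((k : ℂ) * ((2 * s + 1 : ℂ) - k)) * w ^ k =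
      2 * (2 * s + 1) * (w / (1 - w) ^ 2) := by
  rw [sq_sum w hw, pow_succ w (2 * s + 1), hw1]
  push_cast
  field_simp
  ring

theorem k_sum (n : ℂ) (m : ℕ) : ∑ k ∈ range m, ((k : ℂ) * (n - k)) =
    n * (m * (m - 1) / 2) - (m - 1) * m * (2 * m - 1) / 6 := by
  induction m with
  | zero => simp
  | succ m ih =>
    rw [sum_range_succ, ih]
    push_cast
    ring

theorem Z_sum (hζ : IsPrimitiveRoot ζ (2 * s + 1)) :
    ∑ i ∈ range s, (ζ ^ (2 * i + 2) / (1 - ζ ^ (2 * i + 2)) ^ 2) = - ((s : ℂ) * (s + 1)) / 6 := by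
  have h1 : ∑ i ∈ range (2 * s), (ζ ^ (2 * i + 2) / (1 - ζ ^ (2 * i + 2)) ^ 2) =
      2 * ∑ i ∈ range s, (ζ ^ (2 * i + 2) / (1 - ζ ^ (2 * i + 2)) ^ 2) := by
    rw [show 2 * s = s + s by ring, sum_range_add, two_mul]
    congr 1
    rw [← sum_range_reflect]
    refine sum_congr rfl fun i hi => ?_
    have hi' := mem_range.1 hi
    have e1 : ζ ^ (2 * (s + (s - 1 - i)) + 2) * ζ ^ (2 * i + 2) = 1 := by
      rw [← pow_add, show 2 * (s + (s - 1 - i)) + 2 + (2 * i + 2) = (2 * s + 1) * 2 by omega,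
        pow_mul, hζ.pow_eq_one, one_pow]
    rw [eq_inv_of_mul_eq_one_left e1]
    have e3 : 1 - ζ ^ (2 * i + 2) ≠ 0 := ne_one hζ (not_dvd_even (by omega))
    have e4 : ζ ^ (2 * i + 2) ≠ 0 := pow_ne_zero _ (z0 hζ)
    generalize ζ ^ (2 * i + 2) = w at *
    have e7 : 1 - w⁻¹ = - (w⁻¹ * (1 - w)) := by field_simp; ring
    rw [e7]
    field_simp
  have h2 : 2 * (2 * s + 1) * ∑ i ∈ range (2 * s), (ζ ^ (2 * i + 2) / (1 - ζ ^ (2 * i + 2)) ^ 2) =
      ∑ k ∈ range (2 * s + 1), ((k : ℂ) * ((2 * s + 1 : ℂ) - k)) *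
        ∑ i ∈ range (2 * s), (ζ ^ (2 * i + 2)) ^ k := by
    simp_rw [mul_sum]
    rw [sum_comm]
    refine sum_congr rfl fun i hi => ?_
    have hi' := mem_range.1 hi
    rw [sq_sum_root _ (ne_one hζ (not_dvd_even (by omega))) (by
      rw [← pow_mul, mul_comm, pow_mul, hζ.pow_eq_one, one_pow])]
  have h3 : ∑ k ∈ range (2 * s + 1), ((k : ℂ) * ((2 * s + 1 : ℂ) - k)) *
        ∑ i ∈ range (2 * s), (ζ ^ (2 * i + 2)) ^ k =
        ∑ k ∈ range (2 * s + 1), - ((k : ℂ) * ((2 * s + 1 : ℂ) - k)) := by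
    refine sum_congr rfl fun k hk => ?_
    have hk' := mem_range.1 hk
    rcases Nat.eq_zero_or_pos k with h0 | h0
    · subst h0; simp
    · have h4 : ∑ i ∈ range (2 * s), (ζ ^ (2 * i + 2)) ^ k = -1 := by
        obtain ⟨k', rfl⟩ : ∃ k', k = k' + 1 := ⟨k - 1, by omega⟩
        have h5 : 1 - ζ ^ (2 * k' + 2) ≠ 0 := ne_one hζ (not_dvd_even (by omega))
        have h6 : (ζ ^ (2 * k' + 2)) ^ (2 * s + 1) = 1 := by
          rw [← pow_mul, mul_comm, pow_mul, hζ.pow_eq_one, one_pow]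
        have h7 : ∑ i ∈ range (2 * s + 1), (ζ ^ (2 * k' + 2)) ^ i = 0 := by
          have h8 := mul_neg_geom_sum (ζ ^ (2 * k' + 2)) (2 * s + 1)
          rw [h6, sub_self] at h8
          exact (mul_eq_zero.1 h8).resolve_left h5
        rw [sum_range_succ'] at h7
        have h9 : ∑ i ∈ range (2 * s), (ζ ^ (2 * i + 2)) ^ (k' + 1) =
            ∑ i ∈ range (2 * s), (ζ ^ (2 * k' + 2)) ^ (i + 1) := by
          refine sum_congr rfl fun i _ => ?_
          rw [← pow_mul, ← pow_mul]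
          congr 1
          ring
        rw [h9]
        rw [pow_zero] at h7
        linear_combination h7
      rw [h4]; ring
  have h4 : (2 * (s : ℂ) + 1) ≠ 0 := by
    have : ((2 * s + 1 : ℕ) : ℂ) ≠ 0 := Nat.cast_ne_zero.2 (by omega)
    push_cast at this
    exact this
  rw [h3, sum_neg_distrib, k_sum, h1] at h2
  push_cast at h2
  have h5 : (2 * (s : ℂ) + 1) * (∑ i ∈ range s, (ζ ^ (2 * i + 2) / (1 - ζ ^ (2 * i + 2)) ^ 2) + (s * (s + 1)) / 6) = 0 := by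
    linear_combination (1 / 4) * h2
  have h6 := (mul_eq_zero.1 h5).resolve_left h4
  linear_combination h6

theorem limits_eq (hζ : IsPrimitiveRoot ζ (2 * s + 1)) :
    ((-1) ^ s * ζ ^ (s * (s + 1)) * ∑ i ∈ range s, - (ζ ^ (2 * i + 2) / (1 - ζ ^ (2 * i + 2)) ^ 2) +
        ∑ N ∈ range s, Oh ζ s * ζ ^ N * (1 + ζ ^ (2 * s - 2 * N)) /
          (P ζ N * P ζ (2 * s - N) * (1 - ζ ^ (2 * N + 1)) * (1 - ζ ^ (4 * s + 1 - 2 * N)))) =
    ((-1) ^ s * ζ ^ (s * (s + 1)) * ∑ i ∈ range s, (2 * (ζ ^ (2 * i + 2) / (1 - ζ ^ (2 * i + 2)) ^ 2)) +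
        ∑ j ∈ range s, (Oh ζ s ^ 2 / (P ζ (2 * s) * 2 * P ζ j * P ζ (2 * s - j))) *
          (ζ ^ (2 * (j * (j + 1))) * limPair ζ s j)) := by
  have z0 := z0 hζ
  have hn : (2 * (s : ℂ) + 1) ≠ 0 := by
    have : ((2 * s + 1 : ℕ) : ℂ) ≠ 0 := Nat.cast_ne_zero.2 (by omega)
    push_cast at this
    exact this
  have key : ∀ N ∈ range s, Oh ζ s * ζ ^ N * (1 + ζ ^ (2 * s - 2 * N)) /
          (P ζ N * P ζ (2 * s - N) * (1 - ζ ^ (2 * N + 1)) * (1 - ζ ^ (4 * s + 1 - 2 * N))) =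
      (Oh ζ s ^ 2 / (P ζ (2 * s) * 2 * P ζ N * P ζ (2 * s - N))) *
          (ζ ^ (2 * (N * (N + 1))) * limPair ζ s N) - th ζ N * Acl s N (ζ ^ (2 * N + 1)) := by
    intro N hN
    have hN' := mem_range.1 hN
    have hy : 1 - ζ ^ (2 * N + 1) ≠ 0 := ne_one hζ (not_dvd_odd hN')
    have hPm := P_mul hζ (j := N) (by omega)
    have e1 : ζ ^ (2 * s - 2 * N) * ζ ^ (2 * N + 1) = 1 := by
      rw [← pow_add, show 2 * s - 2 * N + (2 * N + 1) = 2 * s + 1 by omega, hζ.pow_eq_one]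
    have e2 : ζ ^ (4 * s + 1 - 2 * N) * ζ ^ (2 * N + 1) = 1 := by
      rw [← pow_add, show 4 * s + 1 - 2 * N + (2 * N + 1) = (2 * s + 1) * 2 by omega, pow_mul,
        hζ.pow_eq_one, one_pow]
    have e3 : ζ ^ (N * (N + 1)) = ζ ^ (N ^ 2) * ζ ^ N := by
      rw [← pow_add]; congr 1; ring
    have e4 : ζ ^ (2 * (N * (N + 1))) = (ζ ^ (N ^ 2) * ζ ^ N) * (ζ ^ (N ^ 2) * ζ ^ N) := by
      rw [← pow_add, ← pow_add]; congr 1; ring
    have e5 : (ζ ^ (2 * N + 1)) ^ N = ζ ^ (N ^ 2) * (ζ ^ (N ^ 2) * ζ ^ N) := by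
      rw [← pow_mul, ← pow_add, ← pow_add]; congr 1; ring
    have e6 : (-1 : ℂ) ^ N * (-1) ^ N = 1 := by
      rw [← mul_pow]; simp
    have e7 : ((4 * (s - N) : ℕ) : ℂ) = 4 * ((s : ℂ) - N) := by
      push_cast [Nat.cast_sub hN'.le]; ring
    have e8 := h_diff' hζ hN'.le
    have i1 : ζ ^ (2 * s - 2 * N) = (ζ ^ (2 * N + 1))⁻¹ := eq_inv_of_mul_eq_one_left e1
    have i2 : ζ ^ (4 * s + 1 - 2 * N) = (ζ ^ (2 * N + 1))⁻¹ := eq_inv_of_mul_eq_one_left e2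
    have hsgn : (-1 : ℂ) ^ N ≠ 0 := pow_ne_zero _ (by norm_num)
    have hy0 : ζ ^ (2 * N + 1) ≠ 0 := pow_ne_zero _ z0
    have hx0 : ζ ^ (N ^ 2) ≠ 0 := pow_ne_zero _ z0
    have hu0 : ζ ^ N ≠ 0 := pow_ne_zero _ z0
    rw [mul_assoc (P ζ (2 * s) * 2), hPm, P_zeta_two hζ, Oh_zeta hζ, e3, e4]
    unfold limPair th Acl
    rw [e5, e7, i1, i2]
    generalize (∑ i ∈ range N, - (2 * ζ ^ (2 * i + 2) / (1 - ζ ^ (2 * i + 2)))) = H1 at *
    generalize (∑ i ∈ range (2 * s - N), - (2 * ζ ^ (2 * i + 2) / (1 - ζ ^ (2 * i + 2)))) = H2 at *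
    have e9 : H1 = H2 - 2 * ((s : ℂ) - N) := by linear_combination e8
    rw [e9]
    generalize ζ ^ (2 * N + 1) = y at *
    generalize ζ ^ (N ^ 2) = x at *
    generalize ζ ^ N = u at *
    generalize (-1 : ℂ) ^ N = σ at *
    have e10 : 1 - y⁻¹ = - (y⁻¹ * (1 - y)) := by field_simp; ring
    rw [e10]
    have e11 : σ⁻¹ = σ := by
      rw [inv_eq_iff_eq_inv]
      exact eq_inv_of_mul_eq_one_left e6
    field_simp
    linear_combination (2 * (1 + y + u * x ^ 2 * ((1 - y) * (1 + y) * ((s : ℂ) - N) - 2 * y))) * e6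
  rw [sum_congr rfl key, sum_sub_distrib, identity_I hζ, ← mul_sum, sum_neg_distrib, Z_sum hζ]
  ring

end Limits


section Main

theorem qPoch_eq_W {K : Type*} [Field K] (q : K) (k : ℕ) : qPoch q q k = W q k := by
  unfold qPoch W
  refine prod_congr rfl fun i _ => ?_
  rw [pow_succ']

theorem qPoch_eq_O {K : Type*} [Field K] (q : K) (k : ℕ) : qPoch q (q ^ 2) k = O q k := by
  unfold qPoch O
  refine prod_congr rfl fun i _ => ?_
  rw [← pow_mul, ← pow_succ']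

theorem qPoch_eq_P {K : Type*} [Field K] (q : K) (k : ℕ) : qPoch (q ^ 2) (q ^ 2) k = P q k := by
  unfold qPoch P
  refine prod_congr rfl fun i _ => ?_
  rw [← pow_mul, ← pow_add, add_comm]

theorem W_two {K : Type*} [Field K] (q : K) (k : ℕ) : W q (2 * k) = O q k * P q k := by
  induction k with
  | zero => simp
  | succ k ih =>
    rw [show 2 * (k + 1) = 2 * k + 1 + 1 by ring, W_succ, W_succ, ih, O_succ, P_succ]
    ring

theorem P_eq_W {K : Type*} [Field K] (q : K) (k : ℕ) : P q k = W q k * qPoch (-q) q k := by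
  unfold P W qPoch
  rw [← prod_mul_distrib]
  refine prod_congr rfl fun i _ => ?_
  ring

theorem Lsum_eq {K : Type*} [Field K] {q : K} (hq : ∀ k : ℕ, 1 - q ^ (k + 1) ≠ 0) (n : ℕ) :
    Lsum n q = ∑ k ∈ range n, q ^ k * O q k / W q k := by
  unfold Lsum qCentral
  refine sum_congr rfl fun k _ => ?_
  have h1 := P_ne_zero hq k
  have h2 := W_ne_zero hq k
  rw [qPoch_eq_W, qPoch_eq_W, W_two]
  rw [P_eq_W] at h1 ⊢
  have h3 := right_ne_zero_of_mul h1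
  field_simp

theorem Rsum_eq {K : Type*} [Field K] (q : K) (n : ℕ) :
    Rsum n q = ∑ k ∈ range n, q ^ (2 * k) * O q k ^ 2 / P q k ^ 2 := by
  unfold Rsum
  refine sum_congr rfl fun k _ => ?_
  rw [qPoch_eq_O, qPoch_eq_P]

end Main

end Pool.Agent.MP_781342_nt_QC
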